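import Pool.Agent.Helper40_FLX.Cor
import Pool.Agent.Helper76_FLX.Moi

/-!
# Squad FLX: MOI with an explicit solution, COR with a bounded solution
(adapted from the files of helper76 and helper40)
-/

set_option autoImplicit false

open scoped InnerProductSpace Topology ContDiff Manifold NNReal
open MeasureTheory Filter Set

noncomputable section

namespace Pool.Agent.FLX.H54

open Pool.Agent.Helper42_Paneitz Pool.Agent.Helper82_Vir Pool.Agent.FLX

section moi
open Pool.Agent.FLX.H76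

/-- the transported function -/
def tr (b : E5) (h : S4 → ℝ) (z : S4) : ℝ := h (mob (-b) z) - Real.log (Jac b (mob (-b) z)) / 4

/-- MOI, explicit form -/
theorem moiB (moa : MoaStmt) (mos : MosStmt) (mom : MomStmt) (ker : KerStmt) (b : E5)
    (Q h : S4 → ℝ) (hb : ‖b‖ < 1) (hQ : Continuous Q) (hIE : IE (fun x => Q (mob b x)) h) :
    IE Q (tr b h) := by
  obtain ⟨hh, havg, c0, hc0⟩ := hIE
  obtain ⟨a1, a2, a3, a4, a5, a6⟩ := moa b hb
  have hb' : ‖-b‖ < 1 := by rwa [norm_neg]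
  obtain ⟨n1, n2, n3, n4, n5, n6⟩ := moa (-b) hb'
  have hinv : ∀ z : S4, mob b (mob (-b) z) = z := fun z => by
    have := n4 z
    rwa [neg_neg] at this
  have hD : 0 < 1 - ‖b‖ ^ 2 := by
    have := norm_nonneg b
    nlinarith
  have hJ : ∀ x, 0 < Jac b x := fun x => by
    unfold Jac
    have := a1 x
    positivity
  -- continuity
  have hcb : ∀ b : E5, ‖b‖ < 1 → Continuous (mob b) := fun b hb => by
    rw [continuous_iff_continuousAt]
    intro x
    have h1 := mos.1.comp_continuous (f := fun x : S4 => (b, x))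
      (continuous_const.prodMk continuous_id) (fun x => hb)
    exact h1.continuousAt
  have hcJ : Continuous (Jac b) := by
    unfold Jac
    refine Continuous.div continuous_const ?_ fun x => (pow_pos (a1 x) 4).ne'
    exact (continuous_const.add (continuous_const.inner continuous_subtype_val)).pow 4
  have hclog : Continuous fun y : S4 => Real.log (1 + ⟪b, (y : E5)⟫_ℝ) :=
    Continuous.log (continuous_const.add (continuous_const.inner continuous_subtype_val))
      fun x => (a1 x).ne'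
  obtain ⟨w, hw⟩ : ∃ w : S4 → ℝ, w = fun z => h (mob (-b) z) - Real.log (Jac b (mob (-b) z)) / 4 :=
    ⟨_, rfl⟩
  have hwtr : tr b h = w := by rw [hw]; rfl
  rw [hwtr]
  have hwc : Continuous w := by
    rw [hw]
    refine (hh.comp (hcb (-b) hb')).sub (Continuous.div_const ?_ 4)
    exact (hcJ.comp (hcb (-b) hb')).log fun z => (hJ _).ne'
  have hwm : ∀ x, w (mob b x) = h x - Real.log (Jac b x) / 4 := fun x => by
    rw [hw]
    simp only [a4 x]
  obtain ⟨f, hf⟩ : ∃ f : S4 → ℝ, f = fun y => Q (mob b y) * Real.exp (4 * h y) := ⟨_, rfl⟩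
  obtain ⟨g, hg⟩ : ∃ g : S4 → ℝ, g = fun y => Q y * Real.exp (4 * w y) := ⟨_, rfl⟩
  have hfc : Continuous f := by
    rw [hf]
    exact (hQ.comp (hcb b hb)).mul (Real.continuous_exp.comp (continuous_const.mul hh))
  have hgf : ∀ y, g (mob b y) * Jac b y = f y := fun y => by
    rw [hg, hf]
    simp only
    rw [hwm y, mul_sub, Real.exp_sub, mul_div_cancel₀ _ (by norm_num : (4 : ℝ) ≠ 0),
      Real.exp_log (hJ y)]
    field_simp [(hJ y).ne']
  have havgf : avg f = 6 := by rw [hf]; exact havg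
  have hmne : msig ≠ 0 := msig_pos.ne'
  have hIf : ∫ y, f y ∂sig = 6 * msig := by
    unfold avg at havgf
    field_simp at havgf
    linarith
  have hIg : ∫ y, g y ∂sig = 6 * msig := by
    rw [← mom b hb g, ← hIf]
    exact integral_congr_ae (Eventually.of_forall fun y => hgf y)
  have havgg : avg g = 6 := by
    unfold avg
    rw [hIg]
    field_simp
  have hIJ : ∫ y, Jac b y ∂sig = msig := by
    have h1 := mom b hb (fun _ => 1)
    simp only [one_mul] at h1
    rw [h1, integral_const_sig, mul_one]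
  -- the kernel
  have hell : ∀ x : S4, ∀ᵐ y ∂sig, ell (mob b x) (mob b y) =
      ell x y + (-Real.log (1 - ‖b‖ ^ 2) + Real.log (1 + ⟪b, (x : E5)⟫_ℝ)) +
        Real.log (1 + ⟪b, (y : E5)⟫_ℝ) := by
    intro x
    filter_upwards [ae_ne x] with y hy
    have h1 : 0 < 1 - ⟪(x : E5), (y : E5)⟫_ℝ := by
      have h2 := dist_sq x y
      have h3 : 0 < dist y x := dist_pos.2 hy
      have h4 : 0 < dist y x ^ 2 := by positivity
      linarith
    unfold ell
    rw [a3 x y, Real.log_div (mul_pos hD h1).ne' (mul_pos (a1 x) (a1 y)).ne',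
      Real.log_mul hD.ne' h1.ne', Real.log_mul (a1 x).ne' (a1 y).ne']
    ring
  have hI := ker.1
  -- the constants
  obtain ⟨L0, hL0⟩ : ∃ L0 : ℝ, ∀ x, ∫ y, ell x y ∂sig = L0 := by
    by_cases hne : Nonempty S4
    · obtain ⟨x0⟩ := hne
      exact ⟨∫ y, ell x0 y ∂sig, fun x => integral_ell_const hI x x0⟩
    · exact ⟨0, fun x => absurd ⟨x⟩ hne⟩
  obtain ⟨A, hA⟩ : ∃ A : S4 → ℝ, A = fun x : S4 =>
      -Real.log (1 - ‖b‖ ^ 2) + Real.log (1 + ⟪b, (x : E5)⟫_ℝ) := ⟨_, rfl⟩
  obtain ⟨β, hβ⟩ : ∃ β : S4 → ℝ, β = fun y : S4 => Real.log (1 + ⟪b, (y : E5)⟫_ℝ) := ⟨_, rfl⟩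
  have hβc : Continuous β := by rw [hβ]; exact hclog
  have hell' : ∀ x : S4, ∀ᵐ y ∂sig, ell (mob b x) (mob b y) = ell x y + A x + β y := by
    intro x
    rw [hA, hβ]
    exact hell x
  -- the general formula
  have hgen : ∀ (x : S4) (v : S4 → ℝ), Continuous v →
      ∫ y, ell (mob b x) (mob b y) * v y ∂sig =
        ∫ y, ell x y * v y ∂sig + A x * ∫ y, v y ∂sig + ∫ y, β y * v y ∂sig := by
    intro x v hv
    have i1 : Integrable (fun y => ell x y * v y) sig := integrable_mul_cont (hI x) hv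
    have i2 : Integrable (fun y => A x * v y) sig := (integrable_cont hv).const_mul _
    have i3 : Integrable (fun y => β y * v y) sig := integrable_cont (hβc.mul hv)
    have i12 : Integrable (fun y => ell x y * v y + A x * v y) sig := i1.add i2
    rw [← integral_const_mul, ← integral_add i1 i2, ← integral_add i12 i3]
    refine integral_congr_ae ?_
    filter_upwards [hell' x] with y hy
    rw [hy]
    ring
  have hJac : ∀ x : S4, ∫ y, ell x y * Jac b y ∂sig =
      L0 - A x * msig - ∫ y, β y * Jac b y ∂sig := by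
    intro x
    have h1 := mom b hb (fun z => ell (mob b x) z)
    have h2 := hgen x (Jac b) hcJ
    rw [hIJ] at h2
    rw [hL0 (mob b x)] at h1
    linarith
  have hmain : ∀ x : S4, K g (mob b x) = K f x + A x +
      (6 * (∫ y, β y * Jac b y ∂sig) + ∫ y, β y * (f y - 6 * Jac b y) ∂sig) / (6 * msig) := by
    intro x
    have h1 := mom b hb (fun z => ell (mob b x) z * (g z - avg g))
    have h2 : ∫ y, ell (mob b x) (mob b y) * (g (mob b y) - avg g) * Jac b y ∂sig =
        ∫ y, ell (mob b x) (mob b y) * (f y - 6 * Jac b y) ∂sig := by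
      refine integral_congr_ae (Eventually.of_forall fun y => ?_)
      change ell (mob b x) (mob b y) * (g (mob b y) - avg g) * Jac b y =
        ell (mob b x) (mob b y) * (f y - 6 * Jac b y)
      rw [havgg, ← hgf y]
      ring
    have hvc : Continuous fun y => f y - 6 * Jac b y := hfc.sub (continuous_const.mul hcJ)
    have h3 := hgen x (fun y => f y - 6 * Jac b y) hvc
    have h4 : ∫ y, (f y - 6 * Jac b y) ∂sig = 0 := by
      rw [integral_sub (integrable_cont hfc) ((integrable_cont hcJ).const_mul 6),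
        integral_const_mul, hIf, hIJ, sub_self]
    have h5 : ∫ y, ell x y * (f y - 6 * Jac b y) ∂sig =
        ∫ y, ell x y * (f y - avg f) ∂sig + 6 * ∫ y, ell x y ∂sig -
          6 * ∫ y, ell x y * Jac b y ∂sig := by
      have i1 : Integrable (fun y => ell x y * (f y - avg f)) sig :=
        integrable_mul_cont (hI x) (hfc.sub continuous_const)
      have i2 : Integrable (fun y => 6 * ell x y) sig := (hI x).const_mul 6
      have i3 : Integrable (fun y => 6 * (ell x y * Jac b y)) sig :=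
        (integrable_mul_cont (hI x) hcJ).const_mul 6
      have i12 : Integrable (fun y => ell x y * (f y - avg f) + 6 * ell x y) sig := i1.add i2
      rw [← integral_const_mul, ← integral_const_mul, ← integral_add i1 i2, ← integral_sub i12 i3]
      refine integral_congr_ae (Eventually.of_forall fun y => ?_)
      change ell x y * (f y - 6 * Jac b y) = ell x y * (f y - avg f) + 6 * ell x y -
        6 * (ell x y * Jac b y)
      rw [havgf]
      ring
    have h6 : K g (mob b x) = (∫ y, ell (mob b x) y * (g y - avg g) ∂sig) / (6 * msig) := rfl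
    have h7 : K f x = (∫ y, ell x y * (f y - avg f) ∂sig) / (6 * msig) := rfl
    rw [h6, h7, ← h1, h2, h3, h4, h5, hL0 x, hJac x]
    field_simp
    ring
  refine ⟨hwc, ?_, ?_⟩
  · rw [← hg]
    exact havgg
  · refine ⟨Real.log (1 - ‖b‖ ^ 2) / 2 + c0 -
      (6 * (∫ y, β y * Jac b y ∂sig) + ∫ y, β y * (f y - 6 * Jac b y) ∂sig) / (6 * msig), ?_⟩
    intro z
    rw [← hg]
    obtain ⟨x, hx⟩ : ∃ x, z = mob b x := ⟨mob (-b) z, (hinv z).symm⟩
    rw [hx, hwm x, hmain x, hc0 x, ← hf]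
    have h1 : Real.log (Jac b x) = 2 * Real.log (1 - ‖b‖ ^ 2) -
        4 * Real.log (1 + ⟪b, (x : E5)⟫_ℝ) := by
      unfold Jac
      rw [Real.log_div (pow_pos hD 2).ne' (pow_pos (a1 x) 4).ne', Real.log_pow, Real.log_pow]
      norm_num
    rw [h1, hA]
    ring

end moi

/-- the Jacobian for a small parameter -/
theorem tr_bound (hMoa : MoaStmt) {b : E5} (hb : ‖b‖ ≤ 1 / 2) {h : S4 → ℝ}
    (hh : ∀ x, |h x| ≤ 1 / 4) (z : S4) : |tr b h z| ≤ 2 := by
  have hb1 : ‖b‖ < 1 := by linarith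
  have hn := norm_nonneg b
  set y := mob (-b) z
  have hin : |⟪b, (y : E5)⟫_ℝ| ≤ ‖b‖ := by
    have := abs_real_inner_le_norm b (y : E5)
    rwa [S4_norm, mul_one] at this
  obtain ⟨h1, h2⟩ := abs_le.1 hin
  have hJ : Jac b y = (1 - ‖b‖ ^ 2) ^ 2 / (1 + ⟪b, (y : E5)⟫_ℝ) ^ 4 := rfl
  have hD : 3 / 4 ≤ 1 - ‖b‖ ^ 2 := by nlinarith
  have hD1 : 1 - ‖b‖ ^ 2 ≤ 1 := by nlinarith [sq_nonneg ‖b‖]
  have hE : 1 / 2 ≤ 1 + ⟪b, (y : E5)⟫_ℝ := by linarith
  have hE1 : 1 + ⟪b, (y : E5)⟫_ℝ ≤ 3 / 2 := by linarith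
  have hlog : Real.log (Jac b y) = 2 * Real.log (1 - ‖b‖ ^ 2) -
      4 * Real.log (1 + ⟪b, (y : E5)⟫_ℝ) := by
    rw [hJ, Real.log_div (by positivity) (by positivity), Real.log_pow, Real.log_pow]
    norm_num
  have e1 : Real.log (1 - ‖b‖ ^ 2) ≤ 0 := Real.log_nonpos (by linarith) hD1
  have e2 : -1 ≤ Real.log (1 - ‖b‖ ^ 2) := by
    have h3 := Real.one_sub_inv_le_log_of_pos (x := 1 - ‖b‖ ^ 2) (by linarith)
    have h4 : (1 - ‖b‖ ^ 2)⁻¹ ≤ 2 := by
      rw [inv_le_comm₀ (by linarith) (by norm_num)]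
      linarith
    linarith
  have e3 : Real.log (1 + ⟪b, (y : E5)⟫_ℝ) ≤ 1 / 2 := by
    have h3 := Real.log_le_sub_one_of_pos (x := 1 + ⟪b, (y : E5)⟫_ℝ) (by linarith)
    linarith
  have e4 : -1 ≤ Real.log (1 + ⟪b, (y : E5)⟫_ℝ) := by
    have h3 := Real.one_sub_inv_le_log_of_pos (x := 1 + ⟪b, (y : E5)⟫_ℝ) (by linarith)
    have h4 : (1 + ⟪b, (y : E5)⟫_ℝ)⁻¹ ≤ 2 := by
      rw [inv_le_comm₀ (by linarith) (by norm_num)]
      linarith
    linarith
  have h5 := abs_le.1 (hh y)
  show |h y - Real.log (Jac b y) / 4| ≤ 2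
  rw [hlog, abs_le]
  constructor <;> linarith

/-- COR with a bounded solution -/
def CorBStmt : Prop :=
  ∀ (p : S4) (β : ℝ → ℝ), Bump β → ∃ e₀ c₀ : ℝ, 0 < e₀ ∧ 0 < c₀ ∧ ∀ (e : ℝ) (q : S4 → ℝ), 0 < e →
    e ≤ e₀ → Continuous q → N2 (fun x => q x - e * β ⟪(p : E5), (x : E5)⟫_ℝ) ≤ c₀ * e →
    ∃ w : S4 → ℝ, IE (fun x => 6 + q x) w ∧ ∀ x, |w x| ≤ 2

section cor
open Pool.Agent.FLX.H40

/-- COR with a bound for the solution -/
theorem corB (hker : KerStmt) (hrea : ReaStmt) (hfix : FixStmt) (hxis : XisStmt)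
    (hsym : SymStmt) (hexp : ExpStmt) (hl2b : L2bStmt) (hmoa : MoaStmt) (hmos : MosStmt)
    (hmom : MomStmt) (hnle : NleStmt) : CorBStmt := by
  intro p β hβ
  obtain ⟨κ, hκ, hexpκ⟩ := hexp p β hβ
  obtain ⟨ρ, hρ0, hρ2, hρ⟩ := hexpκ (κ / 36) (by positivity)
  obtain ⟨τ₀, CF, hτ₀, hCF, hF⟩ := hfix
  obtain ⟨CN, hCN, hN⟩ := hnle
  have hm := msig_pos
  have hsm : 0 < √msig := Real.sqrt_pos.2 hm
  have hp : ‖(p : E5)‖ = 1 := S4_norm p
  have hβc : Continuous β := hβ.1.continuous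
  set g : S4 → ℝ := fun x => β ⟪(p : E5), (x : E5)⟫_ℝ with hg
  have hgc : Continuous g := hβc.comp (continuous_const.inner continuous_subtype_val)
  set Cg : ℝ := 3 * (1 + N2 g) with hCg
  have hCg1 : 0 < Cg := by
    have := N2_nonneg g
    positivity
  set C₃ : ℝ := CN * ((CF + CF ^ 2) * Cg ^ 2) + 1 with hC₃
  have hC₃p : 0 < C₃ := by positivity
  -- the constants
  set c₀ : ℝ := min 1 (κ * ρ / (108 * √msig)) with hc₀
  have hc₀p : 0 < c₀ := lt_min one_pos (by positivity)
  set e₀ : ℝ := min (τ₀ / Cg) (min (1 / (4 * (CF * Cg))) (κ * ρ / (36 * C₃))) with he₀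
  have he₀p : 0 < e₀ := lt_min (by positivity) (lt_min (by positivity) (by positivity))
  refine ⟨e₀, c₀, he₀p, hc₀p, ?_⟩
  intro e q he hee hqc hqN
  have he1 : Cg * e ≤ τ₀ := by
    have h1 : e ≤ τ₀ / Cg := hee.trans (min_le_left _ _)
    rw [le_div_iff₀ hCg1] at h1
    linarith
  have he2 : CF * (Cg * e) ≤ 1 / 4 := by
    have h1 : e ≤ 1 / (4 * (CF * Cg)) := hee.trans ((min_le_right _ _).trans (min_le_left _ _))
    rw [le_div_iff₀ (by positivity)] at h1
    linarith
  have he3 : C₃ * e ≤ κ * ρ / 36 := by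
    have h1 : e ≤ κ * ρ / (36 * C₃) := hee.trans ((min_le_right _ _).trans (min_le_right _ _))
    rw [le_div_iff₀ (by positivity)] at h1
    linarith
  have hc1 : √msig * (3 * c₀) ≤ κ * ρ / 36 := by
    have h1 : c₀ ≤ κ * ρ / (108 * √msig) := min_le_right _ _
    rw [le_div_iff₀ (by positivity)] at h1
    linarith
  have hc2 : c₀ ≤ 1 := min_le_left _ _
  -- the functions on the closed ball
  set S : Set E5 := Metric.closedBall 0 ρ with hS
  have hSn : ∀ b ∈ S, ‖b‖ ≤ ρ := fun b hb => mem_closedBall_zero_iff.1 hb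
  have hS1 : ∀ b ∈ S, ‖b‖ < 1 := fun b hb => by
    have := hSn b hb
    linarith
  have hmobc : ContinuousOn (fun z : E5 × S4 => mob z.1 z.2) (S ×ˢ univ) :=
    hmos.1.mono fun z hz => hS1 z.1 hz.1
  have hmobb : ∀ b ∈ S, Continuous (mob b) := fun b hb => slice_cont mob hmobc hb
  set qb : E5 → S4 → ℝ := fun b x => q (mob b x) with hqb
  have hqbc : ContinuousOn (fun z : E5 × S4 => qb z.1 z.2) (S ×ˢ univ) :=
    hqc.comp_continuousOn hmobc
  have hqb1 : ∀ b ∈ S, Continuous (qb b) := fun b hb => hqc.comp (hmobb b hb)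
  have hl2 : ∀ b ∈ S, ∀ r : S4 → ℝ, Continuous r → N2 (fun x => r (mob b x)) ≤ 3 * N2 r := by
    intro b hb r hr
    have h1 := hl2b b r (hS1 b hb) hr
    have h2 : (1 + ‖b‖) / (1 - ‖b‖) ≤ 3 := by
      have h3 := hSn b hb
      rw [div_le_iff₀ (by linarith)]
      linarith
    exact h1.trans (mul_le_mul_of_nonneg_right h2 (N2_nonneg _))
  have hqN2 : N2 q ≤ (1 + N2 g) * e := by
    have h1 : q = fun x => (q x - e * g x) + e * g x := by
      ext x
      ring
    have h2 : Continuous fun x => q x - e * g x := hqc.sub (continuous_const.mul hgc)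
    have h3 : Continuous fun x => e * g x := continuous_const.mul hgc
    have h4 := N2_add h2 h3
    rw [← h1, N2_smul he.le] at h4
    have h5 : N2 (fun x => q x - e * g x) ≤ c₀ * e := hqN
    have h6 : c₀ * e ≤ 1 * e := mul_le_mul_of_nonneg_right hc2 he.le
    linarith
  have hqbN : ∀ b ∈ S, N2 (qb b) ≤ Cg * e := by
    intro b hb
    have h1 := hl2 b hb q hqc
    have h2 : Cg * e = 3 * ((1 + N2 g) * e) := by rw [hCg]; ring
    rw [h2]
    exact h1.trans (by linarith)
  obtain ⟨H, hHc, hHb, hHR, hHeq⟩ := hF S qb (Cg * e) hqbc (by positivity) he1 hqbN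
  set R : ℝ := CF * (Cg * e) with hR
  have hR0 : 0 ≤ R := by positivity
  set B : E5 → E5 := fun b => ∫ y : S4, Nn (qb b) (H b) y • (y : E5) ∂sig with hB
  have hBc : ContinuousOn B S := by
    refine continuousOn_integral_of_compact_support
      (f := fun (b : E5) (y : S4) => Nn (qb b) (H b) y • (y : E5)) isCompact_univ ?_ ?_
    · show ContinuousOn (fun z : E5 × S4 => Nn (qb z.1) (H z.1) z.2 • (z.2 : E5)) (S ×ˢ univ)
      have h1 : Continuous fun z : E5 × S4 => (z.2 : E5) :=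
        continuous_subtype_val.comp continuous_snd
      have h2 : ContinuousOn (fun z : E5 × S4 => Real.exp (4 * H z.1 z.2)) (S ×ˢ univ) :=
        Real.continuous_exp.comp_continuousOn (continuousOn_const.mul hHc)
      have h3 : ContinuousOn (fun z : E5 × S4 =>
        (6 + qb z.1 z.2) * Real.exp (4 * H z.1 z.2) - 6 - 24 * H z.1 z.2) (S ×ˢ univ) :=
        (((continuousOn_const.add hqbc).mul h2).sub continuousOn_const).sub
        (continuousOn_const.mul hHc)
      exact ContinuousOn.smul h3 h1.continuousOn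
    · intro b x _ hx
      exact absurd (mem_univ x) hx
  have hBest : ∀ b ∈ S, ‖e⁻¹ • B b - Mlin κ (p : E5) b‖ ≤ κ * ρ / 12 := by
    intro b hb
    have h1 := (hN (qb b) (H b) (H b) R 0 (hqb1 b hb) (hHb b hb) (hHb b hb) hR0 he2
      (hHR b hb) (hHR b hb) (fun x => by simp)).2.2
    have h2 : CN * (R * N2 (qb b) + R ^ 2) ≤ C₃ * e * e := by
      have h3 : R * N2 (qb b) ≤ R * (Cg * e) := mul_le_mul_of_nonneg_left (hqbN b hb) hR0
      have h4 : R * (Cg * e) + R ^ 2 = (CF + CF ^ 2) * Cg ^ 2 * e * e := by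
        rw [hR]
        ring
      calc CN * (R * N2 (qb b) + R ^ 2) ≤ CN * (R * (Cg * e) + R ^ 2) := by gcongr
        _ = CN * ((CF + CF ^ 2) * Cg ^ 2) * e * e := by rw [h4]; ring
        _ ≤ C₃ * e * e := by
          have h5 : CN * ((CF + CF ^ 2) * Cg ^ 2) ≤ C₃ := by rw [hC₃]; linarith
          gcongr
    -- the linear part
    have hrc : Continuous fun x => q x - e * g x := hqc.sub (continuous_const.mul hgc)
    have h3 : ‖(∫ y : S4, qb b y • (y : E5) ∂sig) -
        e • ∫ y : S4, g (mob b y) • (y : E5) ∂sig‖ ≤ √msig * (3 * (c₀ * e)) := by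
      have h4 : (∫ y : S4, qb b y • (y : E5) ∂sig) - e • ∫ y : S4, g (mob b y) • (y : E5) ∂sig =
          ∫ y : S4, (fun x => (fun x => q x - e * g x) (mob b x)) y • (y : E5) ∂sig := by
        have i1 := int_smul (hqb1 b hb)
        have i2 := int_smul (hgc.comp (hmobb b hb))
        have i3 : Integrable (fun y : S4 => e • (g (mob b y) • (y : E5))) sig := i2.smul e
        rw [← integral_smul, ← integral_sub i1 i3]
        refine integral_congr_ae (Eventually.of_forall fun y => ?_)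
        show q (mob b y) • (y : E5) - e • (g (mob b y) • (y : E5)) =
          (q (mob b y) - e * g (mob b y)) • (y : E5)
        rw [sub_smul, mul_smul]
      rw [h4]
      refine (norm_integral_smul_le (hrc.comp (hmobb b hb))).trans ?_
      have h5 := hl2 b hb _ hrc
      have h6 : N2 (fun x => q x - e * g x) ≤ c₀ * e := hqN
      refine mul_le_mul_of_nonneg_left ?_ hsm.le
      exact h5.trans (by linarith)
    have h4 := hρ b (hSn b hb)
    have h5 : e⁻¹ • B b - Mlin κ (p : E5) b =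
        e⁻¹ • (B b - ∫ y : S4, qb b y • (y : E5) ∂sig) +
        e⁻¹ • ((∫ y : S4, qb b y • (y : E5) ∂sig) -
          e • ∫ y : S4, g (mob b y) • (y : E5) ∂sig) +
        ((∫ y : S4, g (mob b y) • (y : E5) ∂sig) - Mlin κ (p : E5) b) := by
      rw [smul_sub, smul_sub, smul_smul, inv_mul_cancel₀ he.ne', one_smul]
      abel
    have hei : 0 < e⁻¹ := inv_pos.2 he
    have h6 : ‖e⁻¹ • (B b - ∫ y : S4, qb b y • (y : E5) ∂sig)‖ ≤ κ * ρ / 36 := by
      rw [norm_smul, Real.norm_of_nonneg hei.le]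
      calc e⁻¹ * ‖B b - ∫ y : S4, qb b y • (y : E5) ∂sig‖ ≤ e⁻¹ * (C₃ * e * e) :=
            mul_le_mul_of_nonneg_left (h1.trans h2) hei.le
        _ = C₃ * e := by field_simp
        _ ≤ κ * ρ / 36 := he3
    have h7 : ‖e⁻¹ • ((∫ y : S4, qb b y • (y : E5) ∂sig) -
          e • ∫ y : S4, g (mob b y) • (y : E5) ∂sig)‖ ≤ κ * ρ / 36 := by
      rw [norm_smul, Real.norm_of_nonneg hei.le]
      calc e⁻¹ * ‖(∫ y : S4, qb b y • (y : E5) ∂sig) -
            e • ∫ y : S4, g (mob b y) • (y : E5) ∂sig‖ ≤ e⁻¹ * (√msig * (3 * (c₀ * e))) :=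
            mul_le_mul_of_nonneg_left h3 hei.le
        _ = √msig * (3 * c₀) := by field_simp
        _ ≤ κ * ρ / 36 := hc1
    have h8 : ‖(∫ y : S4, g (mob b y) • (y : E5) ∂sig) - Mlin κ (p : E5) b‖ ≤ κ * ρ / 36 := by
      refine (le_trans h4 ?_)
      calc κ / 36 * ‖b‖ ≤ κ / 36 * ρ := mul_le_mul_of_nonneg_left (hSn b hb) (by positivity)
        _ = κ * ρ / 36 := by ring
    rw [h5]
    refine (norm_add_le _ _).trans ?_
    have h9 := norm_add_le (e⁻¹ • (B b - ∫ y : S4, qb b y • (y : E5) ∂sig))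
      (e⁻¹ • ((∫ y : S4, qb b y • (y : E5) ∂sig) -
          e • ∫ y : S4, g (mob b y) • (y : E5) ∂sig))
    linarith
  -- Brouwer
  obtain ⟨b, hb, hfb⟩ := Pool.Agent.Common_Brouwer.schauder (K := S)
    (isCompact_closedBall (0 : E5) ρ) (convex_closedBall (0 : E5) ρ)
    ⟨0, by rw [hS, Metric.mem_closedBall, dist_self]; exact hρ0.le⟩
    (f := fun b => b - Minv κ (p : E5) (e⁻¹ • B b))
    (continuousOn_id.sub ((continuous_Minv κ (p : E5)).comp_continuousOn
      (hBc.const_smul e⁻¹)))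
    (by
      intro b hb
      have h1 : b - Minv κ (p : E5) (e⁻¹ • B b) =
          -Minv κ (p : E5) (e⁻¹ • B b - Mlin κ (p : E5) b) := by
        rw [Minv_sub, Minv_Mlin hκ.ne' hp]
        abel
      show b - Minv κ (p : E5) (e⁻¹ • B b) ∈ S
      rw [hS, mem_closedBall_zero_iff, h1, norm_neg]
      calc ‖Minv κ (p : E5) (e⁻¹ • B b - Mlin κ (p : E5) b)‖
          ≤ 9 / κ * ‖e⁻¹ • B b - Mlin κ (p : E5) b‖ := norm_Minv_le hκ hp _
        _ ≤ 9 / κ * (κ * ρ / 12) :=
          mul_le_mul_of_nonneg_left (hBest b hb) (by positivity)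
        _ = 3 / 4 * ρ := by
          field_simp
          norm_num
        _ ≤ ρ := by linarith)
  have hB0 : B b = 0 := by
    have h1 : Minv κ (p : E5) (e⁻¹ • B b) = 0 := by
      have h2 : b - Minv κ (p : E5) (e⁻¹ • B b) = b := hfb
      exact sub_eq_self.1 h2
    have h2 := eq_zero_of_Minv hκ.ne' hp h1
    rcases smul_eq_zero.1 h2 with h3 | h3
    · exact absurd h3 (inv_ne_zero he.ne')
    · exact h3
  have hIE := finish hker hrea hxis hsym (hqb1 b hb) (hHb b hb) (hHeq b hb) hB0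
  refine ⟨tr b (H b), moiB hmoa hmos hmom hker b (fun x => 6 + q x) (H b) (hS1 b hb)
    (continuous_const.add hqc) hIE, tr_bound hmoa ((hSn b hb).trans hρ2) fun x => ?_⟩
  exact (hHR b hb x).trans he2

end cor

end Pool.Agent.FLX.H54
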