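import Pool.Agent.Helper54_FLX.Asm2
import Pool.Agent.Helper54_FLX.CorB

/-!
# Squad FLX: multiplicity, the step
-/

set_option autoImplicit false

open scoped InnerProductSpace Topology ContDiff Manifold
open MeasureTheory Filter Set

noncomputable section

namespace Pool.Agent.FLX.H54

open Pool.Agent.Helper42_Paneitz Pool.Agent.Helper82_Vir Pool.Agent.FLX

/-- smooth solutions of the equation -/
def Sol (Q u : S4 → ℝ) : Prop := Sm u ∧ ∀ x, paneitz u x = Q x * Real.exp (4 * u x) - 6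

theorem finE (reg : RegStmt) (slv : SlvStmt) {Q w : S4 → ℝ} (hQ : Sm Q) (hw : IE Q w) :
    Sol Q w := by
  obtain ⟨hc, havg, c, hcw⟩ := hw
  have hws : Sm w := reg Q w c hQ hc hcw
  set f : S4 → ℝ := fun y => Q y * Real.exp (4 * w y) with hf
  have hfs : Sm f := sm_mul hQ (sm_comp (hws.smul 4) Real.contDiff_exp)
  have hKs : Sm (K f) := by
    have h1 : K f = fun x => w x + (-c) := by
      funext x
      rw [hcw x]
      ring
    rw [h1]
    exact hws.add (sm_const (-c))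
  refine ⟨hws, fun x => ?_⟩
  have h2 : w = fun x => K f x + c := funext hcw
  have h3 : paneitz w x = paneitz (fun x => K f x + c) x := by rw [← h2]
  rw [h3, paneitz_add hKs (sm_const c), paneitz_const, add_zero, slv f hfs x, havg]

theorem scaleE {Q u : S4 → ℝ} {c : ℝ} (hc : 0 < c) (h : Sol (fun x => c * Q x) u) :
    Sol Q (fun x => u x + Real.log c / 4) := by
  obtain ⟨hu, hP⟩ := h
  refine ⟨hu.add (sm_const _), fun x => ?_⟩
  rw [paneitz_add hu (sm_const _), paneitz_const, hP x]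
  have e : 4 * (u x + Real.log c / 4) = 4 * u x + Real.log c := by ring
  rw [e, Real.exp_add, Real.exp_log hc]
  ring

theorem mob_fix (hMoa : MoaStmt) (p : S4) {s : ℝ} (h0 : 0 < s) (h1 : s < 1) :
    mob (-(s • (p : E5))) p = p := by
  have hb : ‖-(s • (p : E5))‖ < 1 := by rw [norm_neg, norm_smul_p p h0.le]; exact h1
  obtain ⟨-, -, -, -, h5, -⟩ := hMoa _ hb
  have h := h5 p
  have hpp : ⟪(p : E5), (p : E5)⟫_ℝ = 1 := by
    rw [real_inner_self_eq_norm_sq, S4_norm]; norm_num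
  rw [norm_neg, norm_smul_p p h0.le, inner_neg_left, inner_neg_left, real_inner_smul_left,
    real_inner_smul_left, hpp] at h
  have h2 : ⟪(p : E5), (mob (-(s • (p : E5))) p : E5)⟫_ℝ = 1 := by
    have h3 : (1 - s) * (s * (⟪(p : E5), (mob (-(s • (p : E5))) p : E5)⟫_ℝ - 1)) = 0 := by
      linarith
    rcases mul_eq_zero.1 h3 with h4 | h4
    · linarith
    · rcases mul_eq_zero.1 h4 with h6 | h6
      · linarith
      · linarith
  have h3 := (inner_eq_one_iff_of_norm_eq_one (𝕜 := ℝ) (S4_norm p)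
    (S4_norm (mob (-(s • (p : E5))) p))).1 h2
  exact Subtype.ext h3.symm

theorem tr_at (hMoa : MoaStmt) (p : S4) {s : ℝ} (h0 : 0 < s) (h1 : s < 1) (w : S4 → ℝ) :
    tr (s • (p : E5)) w p = w p + Real.log ((1 + s) / (1 - s)) / 2 := by
  have hpp : ⟪(p : E5), (p : E5)⟫_ℝ = 1 := by
    rw [real_inner_self_eq_norm_sq, S4_norm]; norm_num
  have h1s : 0 < 1 - s := sub_pos.2 h1
  have h1p : 0 < 1 + s := by linarith
  have hJ : Jac (s • (p : E5)) p = (1 - s) ^ 2 / (1 + s) ^ 2 := by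
    unfold Jac
    rw [norm_smul_p p h0.le, real_inner_smul_left, hpp]
    have e : 1 - s ^ 2 = (1 - s) * (1 + s) := by ring
    rw [e]
    field_simp
  unfold tr
  rw [mob_fix hMoa p h0 h1, hJ, Real.log_div (by positivity) (by positivity), Real.log_pow,
    Real.log_pow, Real.log_div h1p.ne' h1s.ne']
  push_cast
  ring

/-- the `L²` neighbours of `Q + (e/c) Fb` have a solution which is large at `p` -/
theorem nbhdE (reg : RegStmt) (slv : SlvStmt) (hL2b : L2bStmt) (hMoa : MoaStmt)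
    (hMos : MosStmt) (hMom : MomStmt) (hKer : KerStmt)
    {Q : S4 → ℝ} {p : S4} {β : ℝ → ℝ} (hQ : Sm Q) {c e c₀ s : ℝ} (hc0 : 0 < c)
    (hcQ : c * Q p = 6) (he0 : 0 < e) (hc₀ : 0 < c₀) (hs0 : 0 < s) (hslt : s < 1)
    (hFs : Sm (Fb β p s))
    (hcor : ∀ (q : S4 → ℝ), Continuous q →
      N2 (fun x => q x - e * β ⟪(p : E5), (x : E5)⟫_ℝ) ≤ c₀ * e →
      ∃ w : S4 → ℝ, IE (fun x => 6 + q x) w ∧ ∀ x, |w x| ≤ 2)
    (hN2 : N2 (fun x => c * Q (mob (s • (p : E5)) x) - c * Q p) ≤ c₀ / 2 * e) :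
    ∃ δ : ℝ, 0 < δ ∧ ∀ Q₂ : S4 → ℝ, Sm Q₂ →
      N2 (fun x => Q₂ x - (Q x + e / c * Fb β p s x)) < δ → ∃ u : S4 → ℝ, Sol Q₂ u ∧
        |u p - (Real.log ((1 + s) / (1 - s)) / 2 + Real.log c / 4)| ≤ 2 := by
  have hb : ‖s • (p : E5)‖ < 1 := by rw [norm_smul_p p hs0.le]; exact hslt
  have h1s : 0 < 1 - s := sub_pos.2 hslt
  have hQ1 : Sm (fun x => Q x + e / c * Fb β p s x) := hQ.add (hFs.smul (e / c))
  set κ : ℝ := (1 + s) / (1 - s) with hκ
  have hκ0 : 0 < κ := by rw [hκ]; positivity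
  refine ⟨c₀ / 2 * e / (c * κ), by positivity, fun Q₂ hQ₂ hN => ?_⟩
  have hQ₂c : Continuous Q₂ := continuous_of_sm hQ₂
  have hmobc : ∀ F : S4 → ℝ, Sm F → Continuous (fun x => F (mob (s • (p : E5)) x)) :=
    fun F hF => continuous_of_sm (hMos.2 _ hb F hF)
  have hDs : Sm (fun x => Q₂ x - (Q x + e / c * Fb β p s x)) := sm_sub hQ₂ hQ1
  set q : S4 → ℝ := fun x => c * Q₂ (mob (s • (p : E5)) x) - 6 with hq
  have hqc : Continuous q := (continuous_const.mul (hmobc _ hQ₂)).sub continuous_const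
  have hsplit : (fun x => q x - e * β ⟪(p : E5), (x : E5)⟫_ℝ) = fun x =>
      c * (fun z => Q₂ z - (Q z + e / c * Fb β p s z)) (mob (s • (p : E5)) x) +
        (c * Q (mob (s • (p : E5)) x) - c * Q p) := by
    funext x
    show c * Q₂ (mob (s • (p : E5)) x) - 6 - e * β ⟪(p : E5), (x : E5)⟫_ℝ =
      c * (Q₂ (mob (s • (p : E5)) x) - (Q (mob (s • (p : E5)) x) + e / c *
        Fb β p s (mob (s • (p : E5)) x))) + (c * Q (mob (s • (p : E5)) x) - c * Q p)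
    rw [Fb_mob hMoa β p hs0 hslt, hcQ]
    field_simp
    ring
  have hN1 : N2 (fun x => c * (fun z => Q₂ z - (Q z + e / c * Fb β p s z))
      (mob (s • (p : E5)) x)) ≤ c₀ / 2 * e := by
    rw [N2_const_mul c (fun x => (fun z => Q₂ z - (Q z + e / c * Fb β p s z))
      (mob (s • (p : E5)) x)), abs_of_pos hc0]
    have h1 := hL2b (s • (p : E5)) (fun z => Q₂ z - (Q z + e / c * Fb β p s z)) hb
      (continuous_of_sm hDs)
    rw [norm_smul_p p hs0.le, ← hκ] at h1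
    calc c * N2 (fun x => (fun z => Q₂ z - (Q z + e / c * Fb β p s z))
          (mob (s • (p : E5)) x))
        ≤ c * (κ * N2 (fun z => Q₂ z - (Q z + e / c * Fb β p s z))) := by gcongr
      _ ≤ c * (κ * (c₀ / 2 * e / (c * κ))) := by gcongr
      _ = c₀ / 2 * e := by field_simp
  have hfin : N2 (fun x => q x - e * β ⟪(p : E5), (x : E5)⟫_ℝ) ≤ c₀ * e := by
    rw [hsplit]
    have hc1 : Continuous fun x => c * (fun z => Q₂ z - (Q z + e / c * Fb β p s z))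
        (mob (s • (p : E5)) x) := continuous_const.fun_mul (hmobc _ hDs)
    have hc2 : Continuous fun x => c * Q (mob (s • (p : E5)) x) - c * Q p :=
      (continuous_const.fun_mul (hmobc _ hQ)).fun_sub continuous_const
    have h := N2_add_le hc1 hc2
    linarith
  obtain ⟨w, hw, hwb⟩ := hcor q hqc hfin
  have hw' : IE (fun x => (fun z => c * Q₂ z) (mob (s • (p : E5)) x)) w := by
    have : (fun x => 6 + q x) = fun x => (fun z => c * Q₂ z) (mob (s • (p : E5)) x) := by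
      funext x
      show 6 + (c * Q₂ (mob (s • (p : E5)) x) - 6) = c * Q₂ (mob (s • (p : E5)) x)
      ring
    rw [← this]; exact hw
  have hw'' := moiB hMoa hMos hMom hKer (s • (p : E5)) (fun z => c * Q₂ z) w hb
    (continuous_const.mul hQ₂c) hw'
  refine ⟨fun x => tr (s • (p : E5)) w x + Real.log c / 4,
    scaleE hc0 (finE reg slv (hQ₂.smul c) hw''), ?_⟩
  show |tr (s • (p : E5)) w p + Real.log c / 4 - (Real.log κ / 2 + Real.log c / 4)| ≤ 2
  rw [tr_at hMoa p hs0 hslt w, ← hκ]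
  have : w p + Real.log κ / 2 + Real.log c / 4 - (Real.log κ / 2 + Real.log c / 4) = w p := by
    ring
  rw [this]
  exact hwb p

/-- the height of the bubble tends to infinity -/
theorem ev_height (B : ℝ) : ∀ᶠ s : ℝ in 𝓝[<] 1, B < Real.log ((1 + s) / (1 - s)) / 2 := by
  have h1 : Tendsto (fun s : ℝ => -(1 / 2 : ℝ) * Real.log (1 - s)) (𝓝[<] 1) atTop := by
    have h2 : Tendsto (fun s : ℝ => 1 - s) (𝓝[<] 1) (𝓝[>] 0) := by
      refine tendsto_nhdsWithin_iff.2 ⟨?_, ?_⟩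
      · have : Tendsto (fun s : ℝ => 1 - s) (𝓝 1) (𝓝 (1 - 1)) :=
          (continuous_const.sub continuous_id).tendsto 1
        rw [sub_self] at this
        exact this.mono_left nhdsWithin_le_nhds
      · filter_upwards [self_mem_nhdsWithin] with s hs
        exact sub_pos.2 (mem_Iio.1 hs)
    have h3 := Real.tendsto_log_nhdsGT_zero.comp h2
    exact Tendsto.const_mul_atBot_of_neg (by norm_num) h3
  filter_upwards [h1.eventually_gt_atTop B, ev_pos] with s hs hs01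
  obtain ⟨h0, h1⟩ := hs01
  rw [Real.log_div (by linarith) (by linarith)]
  have : 0 ≤ Real.log (1 + s) := Real.log_nonneg (by linarith)
  linarith

theorem Fb_at {β : ℝ → ℝ} (hβ : Bump β) (p : S4) {s : ℝ} (hs : s < 1) : Fb β p s p = 0 := by
  have hpp : ⟪(p : E5), (p : E5)⟫_ℝ = 1 := by
    rw [real_inner_self_eq_norm_sq, S4_norm]; norm_num
  unfold Fb
  rw [hpp, mul_one, div_self (sub_pos.2 hs).ne']
  exact hβ.2.2.2.2 1 (by norm_num)

theorem crit_Fb {β : ℝ → ℝ} (hβ : Bump β) (p : S4) {s : ℝ} (hs : s < 1) (v : E5) :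
    dd (Fb β p s) p v = 0 := by
  have hloc : IsLocalMin (radialExt (Fb β p s)) (p : E5) := by
    filter_upwards [eventually_ne_zero (S4_ne_zero p)] with z hz
    rw [radialExt_apply _ hz, radialExt_coe, Fb_at hβ p hs]
    exact hβ.2.2.1 _
  show fderiv ℝ (radialExt (Fb β p s)) (p : E5) v = 0
  rw [hloc.fderiv_eq_zero]
  rfl

/-- what is needed from the rows -/
def Rows : Prop :=
  CorBStmt ∧ ZomStmt ∧ HolStmt ∧ L2bStmt ∧ MoaStmt ∧ MosStmt ∧ MomStmt ∧ KerStmt ∧ RegStmt ∧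
    SlvStmt ∧ DerStmt

/-- the step at a critical point -/
theorem stepC (hR : Rows) (Q : S4 → ℝ) (p : S4) (U : Set S4) (α ε B : ℝ) (hQ : Sm Q)
    (hcrit : Crit Q p) (hQp : 0 < Q p) (hU : U ∈ 𝓝 p) (hα0 : 0 ≤ α) (hα1 : α < 1) (hε : 0 < ε) :
    ∃ Q₁ : S4 → ℝ, Sm Q₁ ∧ (∀ x, x ∉ U → Q₁ x = Q x) ∧ HC α ε (fun x => Q₁ x - Q x) ∧
      Crit Q₁ p ∧ Q₁ p = Q p ∧ ∃ δ B' : ℝ, 0 < δ ∧ ∀ Q₂ : S4 → ℝ, Sm Q₂ →
        N2 (fun x => Q₂ x - Q₁ x) < δ → ∃ u, Sol Q₂ u ∧ B < u p ∧ u p ≤ B' := by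
  obtain ⟨hCor, hZom, hHol, hL2b, hMoa, hMos, hMom, hKer, hReg, hSlv, hDer⟩ := hR
  obtain ⟨β, hβ⟩ := exists_bump
  obtain ⟨e₀, c₀, he₀, hc₀, hcor⟩ := hCor p β hβ
  obtain ⟨CH, hCH0, hCH⟩ := hHol p β hβ
  set c : ℝ := 6 / Q p with hc
  have hc0 : 0 < c := by positivity
  have hcQ : c * Q p = 6 := by rw [hc]; field_simp
  have hQc : Continuous Q := continuous_of_sm hQ
  set η : ℝ := (1 - α) / 8 with hη
  have hη0 : 0 < η := by rw [hη]; linarith
  have hη1 : η < 1 := by rw [hη]; linarith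
  obtain ⟨CZ, hCZ0, hCZ⟩ := hZom (fun x => c * Q x) p η (hQ.smul c) (fun v => by
    rw [dd_fun_smul c hQ, hcrit v, mul_zero]) hη0 hη1
  -- powers of `1 - s` tend to zero
  have hpow : ∀ (a b δ : ℝ), 0 < a → 0 < δ → ∀ᶠ s : ℝ in 𝓝[<] 1, b * (1 - s) ^ a < δ := by
    intro a b δ ha hδ
    have h1 : Tendsto (fun s : ℝ => 1 - s) (𝓝 1) (𝓝 0) := by
      have : Continuous fun s : ℝ => 1 - s := by fun_prop
      simpa using this.tendsto 1
    have h2 : Tendsto (fun s : ℝ => (1 - s) ^ a) (𝓝 1) (𝓝 0) := by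
      have := h1.rpow_const (p := a) (Or.inr ha.le)
      rwa [Real.zero_rpow ha.ne'] at this
    have h3 : Tendsto (fun s : ℝ => b * (1 - s) ^ a) (𝓝 1) (𝓝 0) := by
      simpa using h2.const_mul b
    exact (h3.eventually_lt_const hδ).filter_mono nhdsWithin_le_nhds
  have ev1 := hpow (1 - 2 * η) 1 e₀ (by rw [hη]; linarith) he₀
  have ev2 := hpow η CZ (c₀ / 2) hη0 (by positivity)
  have ev3 := hpow ((1 - α) / 4) (CH / c) ε (by linarith) hε
  have ev4 := supp_small hβ p hU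
  have ev5 := ev_height (B + 2 - Real.log c / 4)
  obtain ⟨s, hs1, hs2, hs3, hs4, hs5, hs0, hslt⟩ :=
    (ev1.and (ev2.and (ev3.and (ev4.and (ev5.and ev_pos))))).exists
  have h1s : 0 < 1 - s := sub_pos.2 hslt
  set e : ℝ := (1 - s) ^ (1 - 2 * η) with he
  have he0 : 0 < e := Real.rpow_pos_of_pos h1s _
  have hee : e ≤ e₀ := by linarith
  obtain ⟨_, -, hD⟩ := hDer p β hβ
  have hFs : Sm (Fb β p s) := (hD s hs0.le hslt).1
  have hb : ‖s • (p : E5)‖ < 1 := by rw [norm_smul_p p hs0.le]; exact hslt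
  have hQ1 : Sm (fun x => Q x + e / c * Fb β p s x) := hQ.add (hFs.smul (e / c))
  refine ⟨fun x => Q x + e / c * Fb β p s x, hQ1, ?_, ?_, ?_, ?_, ?_⟩
  · intro x hx
    show Q x + e / c * Fb β p s x = Q x
    rw [hs4 x hx, mul_zero, add_zero]
  · -- the norm
    have h := hCH α s hα0 hα1.le hs0.le hslt
    have hkey : e / c * (CH * (1 - s) ^ (-((1 + α) / 2))) ≤ ε := by
      have e1 : e / c * (CH * (1 - s) ^ (-((1 + α) / 2))) =
          CH / c * ((1 - s) ^ (1 - 2 * η) * (1 - s) ^ (-((1 + α) / 2))) := by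
        rw [he]; ring
      rw [e1, ← Real.rpow_add h1s]
      have e2 : 1 - 2 * η + -((1 + α) / 2) = (1 - α) / 4 := by rw [hη]; ring
      rw [e2]
      exact hs3.le
    have hec : 0 < e / c := div_pos he0 hc0
    have hfun : (fun x => (Q x + e / c * Fb β p s x) - Q x) = fun x => e / c * Fb β p s x := by
      funext x; ring
    have hdd : ∀ (x : S4) (v : E5), dd (fun x => (Q x + e / c * Fb β p s x) - Q x) x v =
        e / c * dd (Fb β p s) x v := by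
      intro x v
      rw [hfun, dd_fun_smul _ hFs]
    intro x y v
    obtain ⟨g1, g2, g3⟩ := h x y v
    have hv : 0 ≤ ‖v‖ := norm_nonneg v
    have hdp : 0 ≤ dist x y ^ α := Real.rpow_nonneg dist_nonneg _
    refine ⟨?_, ?_, ?_⟩
    · show |(Q x + e / c * Fb β p s x) - Q x| ≤ ε
      rw [add_sub_cancel_left, abs_mul, abs_of_pos hec]
      exact (mul_le_mul_of_nonneg_left g1 hec.le).trans hkey
    · rw [hdd, abs_mul, abs_of_pos hec]
      calc e / c * |dd (Fb β p s) x v|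
          ≤ e / c * (CH * (1 - s) ^ (-((1 + α) / 2)) * ‖v‖) := by gcongr
        _ = e / c * (CH * (1 - s) ^ (-((1 + α) / 2))) * ‖v‖ := by ring
        _ ≤ ε * ‖v‖ := by gcongr
    · rw [hdd, hdd, ← mul_sub, abs_mul, abs_of_pos hec]
      calc e / c * |dd (Fb β p s) x v - dd (Fb β p s) y v|
          ≤ e / c * (CH * (1 - s) ^ (-((1 + α) / 2)) * ‖v‖ * dist x y ^ α) := by gcongr
        _ = e / c * (CH * (1 - s) ^ (-((1 + α) / 2))) * ‖v‖ * dist x y ^ α := by ring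
        _ ≤ ε * ‖v‖ * dist x y ^ α := by gcongr
  · intro v
    rw [dd_fun_add hQ (hFs.smul (e / c)), dd_fun_smul _ hFs, crit_Fb hβ p hslt v, hcrit v,
      mul_zero, add_zero]
  · show Q p + e / c * Fb β p s p = Q p
    rw [Fb_at hβ p hslt, mul_zero, add_zero]
  · have hN2 : N2 (fun x => c * Q (mob (s • (p : E5)) x) - c * Q p) ≤ c₀ / 2 * e := by
      refine (hCZ s hs0 hslt).trans ?_
      have e1 : (1 - s) ^ (1 - η) = (1 - s) ^ η * e := by
        rw [he, ← Real.rpow_add h1s]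
        congr 1
        ring
      rw [e1, ← mul_assoc]
      gcongr
    obtain ⟨δ, hδ, hsol⟩ := nbhdE hReg hSlv hL2b hMoa hMos hMom hKer hQ hc0 hcQ he0 hc₀ hs0 hslt
      hFs (fun q hq1 hq2 => hcor e q he0 hee hq1 hq2) hN2
    refine ⟨δ, Real.log ((1 + s) / (1 - s)) / 2 + Real.log c / 4 + 2, hδ, fun Q₂ hQ₂ hN => ?_⟩
    obtain ⟨u, hu, hup⟩ := hsol Q₂ hQ₂ hN
    obtain ⟨h1, h2⟩ := abs_le.1 hup
    exact ⟨u, hu, by linarith, by linarith⟩

/-- the step at any point -/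
theorem step0 (hR : Rows) (Q : S4 → ℝ) (p : S4) (U : Set S4) (ε B : ℝ) (hQ : Sm Q)
    (hQp : 0 < Q p) (hU : U ∈ 𝓝 p) (hε : 0 < ε) :
    ∃ Q₁ : S4 → ℝ, Sm Q₁ ∧ (∀ x, x ∉ U → Q₁ x = Q x) ∧ (∀ x, |Q₁ x - Q x| ≤ ε) ∧
      Q₁ p = Q p ∧ ∃ δ B' : ℝ, 0 < δ ∧ ∀ Q₂ : S4 → ℝ, Sm Q₂ →
        N2 (fun x => Q₂ x - Q₁ x) < δ → ∃ u, Sol Q₂ u ∧ B < u p ∧ u p ≤ B' := by
  obtain ⟨hCor, hZom, -, hL2b, hMoa, hMos, hMom, hKer, hReg, hSlv, hDer⟩ := hR
  obtain ⟨β, hβ⟩ := exists_bump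
  obtain ⟨e₀, c₀, he₀, hc₀, hcor⟩ := hCor p β hβ
  obtain ⟨C, hC0, hD⟩ := hDer p β hβ
  set c : ℝ := 6 / Q p with hc
  have hc0 : 0 < c := by positivity
  have hcQ : c * Q p = 6 := by rw [hc]; field_simp
  set e : ℝ := min e₀ (ε * c / (C + 1)) with he
  have he0 : 0 < e := lt_min he₀ (by positivity)
  have ev1 := zoom_tendsto hZom hMos (hQ.smul c) p (δ := c₀ / 2 * e) (by positivity)
  have ev2 := supp_small hβ p hU
  have ev3 := ev_height (B + 2 - Real.log c / 4)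
  obtain ⟨s, hs1, hs4, hs5, hs0, hslt⟩ := (ev1.and (ev2.and (ev3.and ev_pos))).exists
  have hFs : Sm (Fb β p s) := (hD s hs0.le hslt).1
  refine ⟨fun x => Q x + e / c * Fb β p s x, hQ.add (hFs.smul (e / c)), ?_, ?_, ?_, ?_⟩
  · intro x hx
    show Q x + e / c * Fb β p s x = Q x
    rw [hs4 x hx, mul_zero, add_zero]
  · intro x
    show |Q x + e / c * Fb β p s x - Q x| ≤ ε
    have hec : 0 < e / c := div_pos he0 hc0
    rw [add_sub_cancel_left, abs_mul, abs_of_pos hec]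
    have h1 := ((hD s hs0.le hslt).2 x 0 0).1
    calc e / c * |Fb β p s x| ≤ (ε * c / (C + 1)) / c * (C + 1) := by
          have h2 : e ≤ ε * c / (C + 1) := min_le_right _ _
          gcongr
          linarith
      _ = ε := by
          have : C + 1 ≠ 0 := by positivity
          field_simp
  · show Q p + e / c * Fb β p s p = Q p
    rw [Fb_at hβ p hslt, mul_zero, add_zero]
  · obtain ⟨δ, hδ, hsol⟩ := nbhdE hReg hSlv hL2b hMoa hMos hMom hKer hQ hc0 hcQ he0 hc₀ hs0 hslt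
      hFs (fun q hq1 hq2 => hcor e q he0 (min_le_left _ _) hq1 hq2) hs1
    refine ⟨δ, Real.log ((1 + s) / (1 - s)) / 2 + Real.log c / 4 + 2, hδ, fun Q₂ hQ₂ hN => ?_⟩
    obtain ⟨u, hu, hup⟩ := hsol Q₂ hQ₂ hN
    obtain ⟨h1, h2⟩ := abs_le.1 hup
    exact ⟨u, hu, by linarith, by linarith⟩

/-! ### many solutions -/

/-- at least `k` solutions with bounded value at `p` -/
def Many (k : ℕ) (Q : S4 → ℝ) (p : S4) (B : ℝ) : Prop :=
  ∃ u : Fin k → S4 → ℝ, Function.Injective u ∧ ∀ i, Sol Q (u i) ∧ u i p ≤ B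

theorem Many.succ {k : ℕ} {Q v : S4 → ℝ} {p : S4} {B B' : ℝ} (h : Many k Q p B) (hv : Sol Q v)
    (h1 : B < v p) (h2 : v p ≤ B') : Many (k + 1) Q p B' := by
  obtain ⟨u, hu, hs⟩ := h
  refine ⟨Fin.cons v u, ?_, ?_⟩
  · rw [Fin.cons_injective_iff]
    refine ⟨?_, hu⟩
    rintro ⟨i, hi⟩
    have := (hs i).2
    rw [hi] at this
    linarith
  · intro i
    refine Fin.cases ?_ (fun j => ?_) i
    · rw [Fin.cons_zero]
      exact ⟨hv, h2⟩
    · rw [Fin.cons_succ]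
      exact ⟨(hs j).1, (hs j).2.trans (h1.le.trans h2)⟩

theorem HC.add {α e e' : ℝ} {f g : S4 → ℝ} (hf : Sm f) (hg : Sm g) (h : HC α e f)
    (h' : HC α e' g) : HC α (e + e') (fun x => f x + g x) := by
  intro x y v
  obtain ⟨a1, a2, a3⟩ := h x y v
  obtain ⟨b1, b2, b3⟩ := h' x y v
  rw [dd_fun_add hf hg, dd_fun_add hf hg]
  refine ⟨?_, ?_, ?_⟩
  · exact (abs_add_le _ _).trans (add_le_add a1 b1)
  · rw [add_mul]
    exact (abs_add_le _ _).trans (add_le_add a2 b2)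
  · have e1 : dd f x v + dd g x v - (dd f y v + dd g y v) =
        (dd f x v - dd f y v) + (dd g x v - dd g y v) := by ring
    rw [e1, add_mul, add_mul]
    exact (abs_add_le _ _).trans (add_le_add a3 b3)

theorem HC.mono {α e e' : ℝ} {f : S4 → ℝ} (h : HC α e f) (hee : e ≤ e') : HC α e' f := by
  intro x y v
  obtain ⟨a1, a2, a3⟩ := h x y v
  have hdp : 0 ≤ dist x y ^ α := Real.rpow_nonneg dist_nonneg _
  refine ⟨a1.trans hee, a2.trans (by gcongr), a3.trans (by gcongr)⟩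

theorem hc_zero (α : ℝ) {e : ℝ} (he : 0 ≤ e) : HC α e (fun _ => (0 : ℝ)) := by
  intro x y v
  have h : ∀ x : S4, dd (fun _ : S4 => (0 : ℝ)) x v = 0 := fun x => by
    have := dd_fun_smul 0 (sm_const (0 : ℝ)) x v
    simpa using this
  have hdp : 0 ≤ dist x y ^ α := Real.rpow_nonneg dist_nonneg _
  rw [h x, h y]
  simp only [abs_zero, sub_zero]
  exact ⟨he, by positivity, by positivity⟩

/-- the triangle inequality for two steps -/
theorem N2_step {Q₁ Q' Q₂ : S4 → ℝ} (h1 : Sm Q₁) (h' : Sm Q') (h2 : Sm Q₂) {δ ε : ℝ}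
    (hN : N2 (fun x => Q₂ x - Q' x) < δ / 2) (hε : √msig * ε ≤ δ / 2)
    (hb : ∀ x, |Q' x - Q₁ x| ≤ ε) : N2 (fun x => Q₂ x - Q₁ x) < δ := by
  have e : (fun x => Q₂ x - Q₁ x) = fun x => (Q₂ x - Q' x) + (Q' x - Q₁ x) := by
    funext x; ring
  have hD : Continuous fun x => Q' x - Q₁ x := continuous_of_sm (sm_sub h' h1)
  rw [e]
  have h3 := N2_add_le (continuous_of_sm (sm_sub h2 h')) hD
  have h4 := N2_le_of_bound hD hb
  linarith

/-- many solutions near a critical point -/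
theorem multC (hR : Rows) (k : ℕ) (Q : S4 → ℝ) (p : S4) (U : Set S4) (α : ℝ) (hQ : Sm Q)
    (hcrit : Crit Q p) (hQp : 0 < Q p) (hU : U ∈ 𝓝 p) (hα0 : 0 ≤ α) (hα1 : α < 1) :
    ∀ ε : ℝ, 0 < ε →
    ∃ Q₁ : S4 → ℝ, Sm Q₁ ∧ (∀ x, x ∉ U → Q₁ x = Q x) ∧ HC α ε (fun x => Q₁ x - Q x) ∧
      Crit Q₁ p ∧ Q₁ p = Q p ∧ ∃ δ B : ℝ, 0 < δ ∧ ∀ Q₂ : S4 → ℝ, Sm Q₂ →
        N2 (fun x => Q₂ x - Q₁ x) < δ → Many k Q₂ p B := by
  induction k with
  | zero =>
    intro ε hε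
    refine ⟨Q, hQ, fun _ _ => rfl, ?_, hcrit, rfl, 1, 0, one_pos, fun Q₂ _ _ =>
      ⟨Fin.elim0, fun i => i.elim0, fun i => i.elim0⟩⟩
    simp only [sub_self]
    exact hc_zero α hε.le
  | succ k ih =>
    intro ε hε
    obtain ⟨Q₁, g1, g2, g3, g4, g5, δ, B, hδ, g6⟩ := ih (ε / 2) (half_pos hε)
    have hsm : 0 < √msig := Real.sqrt_pos.2 msig_pos
    set ε' : ℝ := min (ε / 2) (δ / 2 / √msig) with hε'
    have hε'0 : 0 < ε' := lt_min (half_pos hε) (by positivity)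
    obtain ⟨Q', h1, h2, h3, h4, h5, δ', B', hδ', h6⟩ := stepC hR Q₁ p U α ε' B g1 g4
      (by rw [g5]; exact hQp) hU hα0 hα1 hε'0
    refine ⟨Q', h1, fun x hx => (h2 x hx).trans (g2 x hx), ?_, h4, h5.trans g5,
      min (δ / 2) δ', B', lt_min (half_pos hδ) hδ', fun Q₂ hQ₂ hN => ?_⟩
    · have h7 := HC.add (sm_sub h1 g1) (sm_sub g1 hQ) (HC.mono h3 (min_le_left _ _)) g3
      have e : (fun x => Q' x - Q x) = fun x => (Q' x - Q₁ x) + (Q₁ x - Q x) := by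
        funext x; ring
      rw [e]
      rwa [add_halves] at h7
    · obtain ⟨v, hv, hv1, hv2⟩ := h6 Q₂ hQ₂ (lt_of_lt_of_le hN (min_le_right _ _))
      refine (g6 Q₂ hQ₂ ?_).succ hv hv1 hv2
      refine N2_step g1 h1 hQ₂ (lt_of_lt_of_le hN (min_le_left _ _)) (ε := ε') ?_
        fun x => (h3 x x 0).1
      have h8 : ε' ≤ δ / 2 / √msig := min_le_right _ _
      rw [le_div_iff₀ hsm] at h8
      linarith

/-- many solutions near any point -/
theorem mult0 (hR : Rows) (k : ℕ) (Q : S4 → ℝ) (p : S4) (U : Set S4) (hQ : Sm Q)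
    (hQp : 0 < Q p) (hU : U ∈ 𝓝 p) :
    ∀ ε : ℝ, 0 < ε →
    ∃ Q₁ : S4 → ℝ, Sm Q₁ ∧ (∀ x, x ∉ U → Q₁ x = Q x) ∧ (∀ x, |Q₁ x - Q x| ≤ ε) ∧
      Q₁ p = Q p ∧ ∃ δ B : ℝ, 0 < δ ∧ ∀ Q₂ : S4 → ℝ, Sm Q₂ →
        N2 (fun x => Q₂ x - Q₁ x) < δ → Many k Q₂ p B := by
  induction k with
  | zero =>
    intro ε hε
    refine ⟨Q, hQ, fun _ _ => rfl, fun x => ?_, rfl, 1, 0, one_pos, fun Q₂ _ _ =>
      ⟨Fin.elim0, fun i => i.elim0, fun i => i.elim0⟩⟩
    rw [sub_self, abs_zero]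
    exact hε.le
  | succ k ih =>
    intro ε hε
    obtain ⟨Q₁, g1, g2, g3, g5, δ, B, hδ, g6⟩ := ih (ε / 2) (half_pos hε)
    have hsm : 0 < √msig := Real.sqrt_pos.2 msig_pos
    set ε' : ℝ := min (ε / 2) (δ / 2 / √msig) with hε'
    have hε'0 : 0 < ε' := lt_min (half_pos hε) (by positivity)
    obtain ⟨Q', h1, h2, h3, h5, δ', B', hδ', h6⟩ := step0 hR Q₁ p U ε' B g1
      (by rw [g5]; exact hQp) hU hε'0
    refine ⟨Q', h1, fun x hx => (h2 x hx).trans (g2 x hx), fun x => ?_, h5.trans g5,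
      min (δ / 2) δ', B', lt_min (half_pos hδ) hδ', fun Q₂ hQ₂ hN => ?_⟩
    · have e : Q' x - Q x = (Q' x - Q₁ x) + (Q₁ x - Q x) := by ring
      rw [e]
      have h7 := (h3 x).trans (min_le_left _ _)
      have h8 := abs_add_le (Q' x - Q₁ x) (Q₁ x - Q x)
      have h9 := g3 x
      linarith
    · obtain ⟨v, hv, hv1, hv2⟩ := h6 Q₂ hQ₂ (lt_of_lt_of_le hN (min_le_right _ _))
      refine (g6 Q₂ hQ₂ ?_).succ hv hv1 hv2
      refine N2_step g1 h1 hQ₂ (lt_of_lt_of_le hN (min_le_left _ _)) (ε := ε') ?_ h3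
      have h8 : ε' ≤ δ / 2 / √msig := min_le_right _ _
      rw [le_div_iff₀ hsm] at h8
      linarith

/-- many solutions after a change in any nonempty open set -/
theorem multE (hR : Rows) (k : ℕ) (Q : S4 → ℝ) (U : Set S4) (hQ : Sm Q) (hU : IsOpen U)
    (hne : U.Nonempty) :
    ∃ Q₁ : S4 → ℝ, Sm Q₁ ∧ (∀ x, x ∉ U → Q₁ x = Q x) ∧ ∃ δ B : ℝ, ∃ p : S4, 0 < δ ∧
      ∀ Q₂ : S4 → ℝ, Sm Q₂ → N2 (fun x => Q₂ x - Q₁ x) < δ → Many k Q₂ p B := by
  obtain ⟨x₀, hx₀⟩ := hne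
  obtain ⟨b, hb, hb0, hb1, hb2⟩ := exists_hill x₀ (hU.mem_nhds hx₀)
  set M : ℝ := (|Q x₀| + 1) / b x₀ with hM
  have hQ' : Sm (fun x => Q x + M * b x) := hQ.add (hb.smul M)
  have hpos : 0 < Q x₀ + M * b x₀ := by
    rw [hM, div_mul_cancel₀ _ hb1.ne']
    have := neg_abs_le (Q x₀)
    linarith
  obtain ⟨Q₁, h1, h2, -, -, δ, B, hδ, h4⟩ := mult0 hR k (fun x => Q x + M * b x) x₀ U hQ' hpos
    (hU.mem_nhds hx₀) 1 one_pos
  refine ⟨Q₁, h1, fun x hx => ?_, δ, B, x₀, hδ, h4⟩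
  rw [h2 x hx]
  show Q x + M * b x = Q x
  rw [hb2 x hx, mul_zero, add_zero]

end Pool.Agent.FLX.H54
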