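import Pool.Agent.Helper82_FLX.Vol
import Pool.Agent.Helper82_FLX.Pow
import Pool.Agent.Helper83_FLX.Ker
import Pool.Agent.Helper32_FLX.Rea
import Pool.Agent.Helper77_FLX.Reb
import Pool.Agent.Helper25_FLX.Rec
import Pool.Agent.Helper39_FLX.Reg
import Pool.Agent.Helper82_FLX.Rep
import Pool.Agent.Helper53_FLX.Slv
import Pool.Agent.Helper55_FLX.Sym
import Pool.Agent.Helper55_FLX.Xis
import Pool.Agent.Helper88_FLX.Nrm
import Pool.Agent.Helper18_FLX.Moa
import Pool.Agent.Helper18_FLX.Mos
import Pool.Agent.Helper55_FLX.Mom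
import Pool.Agent.Helper18_FLX.L2b
import Pool.Agent.Helper10_FLX.Exp
import Pool.Agent.Helper3_FLX.Nle
import Pool.Agent.Helper40_FLX.Fix
import Pool.Agent.Helper65_FLX.TAY
import Pool.Agent.Helper65_FLX.ZOM
import Pool.Agent.Helper59_FLX.Der
import Pool.Agent.Helper59_FLX.Lip
import Pool.Agent.Helper59_FLX.Hol
import Pool.Agent.Helper88_FLX.Neg
import Pool.Agent.Helper54_FLX.Step

/-!
# Squad FLX: all rows together
-/

set_option autoImplicit false

noncomputable section

namespace Pool.Agent.FLX.H54

open Pool.Agent.FLX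

theorem pow_all : PowStmt := H82.pow H82.vol

theorem moa_all : MoaStmt := H18.moa

theorem mos_all : MosStmt := H18.mos moa_all

theorem mom_all : MomStmt := H55.mom moa_all mos_all

theorem l2b_all : L2bStmt := H18.l2b moa_all mom_all

theorem exp_all : ExpStmt := H10.exp_ moa_all mos_all mom_all

theorem zom_all : ZomStmt := H65.zom H65.tay pow_all moa_all

theorem der_all : DerStmt := H59.der

theorem hol_all : HolStmt := H59.hol H59.der H59.lip

theorem rows_of (ker : KerStmt) (sym : SymStmt) : Rows := by
  have rea : ReaStmt := H32.rea pow_all ker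
  have reb : RebStmt := H77.reb ker rea
  have rec_ : RecStmt := H25.rec_row rea reb
  have reg : RegStmt := H39.reg rec_
  have rep : RepStmt := H82.rep ker
  have slv : SlvStmt := H53.slv rec_ sym rep
  have xis : XisStmt := H55.xis sym rep
  have fix_ : FixStmt := H40.fix ker rea H88.nrm H3.nle
  have cor : CorBStmt := corB ker rea fix_ xis sym exp_all l2b_all moa_all mos_all mom_all H3.nle
  exact ⟨cor, zom_all, hol_all, l2b_all, moa_all, mos_all, mom_all, ker, reg, slv, der_all⟩

theorem rows_all : Rows := by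
  have ker : KerStmt := H83.ker pow_all
  exact rows_of ker (H55.sym ker (H32.rea pow_all ker))

end Pool.Agent.FLX.H54
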