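import Pool.Agent.FLX.Stmts
import Pool.Agent.FLX.Kit

/-!
# Squad FLX: assembly (ASM)
-/

set_option autoImplicit false

open scoped InnerProductSpace Topology ContDiff Manifold
open MeasureTheory Filter Set

noncomputable section

namespace Pool.Agent.FLX.H54

open Pool.Agent.Helper42_Paneitz Pool.Agent.Helper82_Vir Pool.Agent.FLX

/-- a bump function -/
theorem exists_bump : ∃ β : ℝ → ℝ, Bump β := by
  refine ⟨fun t => expNegInvGlue (4 / 25 - t ^ 2), ?_, ?_, ?_, ?_, ?_⟩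
  · exact expNegInvGlue.contDiff.comp (contDiff_const.sub (contDiff_id.pow 2))
  · intro t
    show expNegInvGlue (4 / 25 - (-t) ^ 2) = expNegInvGlue (4 / 25 - t ^ 2)
    rw [neg_sq]
  · exact fun t => expNegInvGlue.nonneg _
  · exact expNegInvGlue.pos_of_pos (by norm_num)
  · intro t ht
    apply expNegInvGlue.zero_of_nonpos
    have : (2 / 5 : ℝ) ^ 2 ≤ |t| ^ 2 := by gcongr
    rw [sq_abs] at this
    linarith

/-- scaling -/
theorem scale {Q : S4 → ℝ} (hQ : Sm Q) {c : ℝ} (hc : 0 < c)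
    (h : IsPaneitzCurvature (fun x => c * Q x)) : IsPaneitzCurvature Q := by
  obtain ⟨-, u, hu, hP⟩ := h
  have hsu := sm_of_contMDiff hu
  refine ⟨contMDiff_of_sm hQ, fun x => u x + Real.log c / 4,
    contMDiff_of_sm (hsu.add (sm_const _)), fun x => ?_⟩
  rw [paneitz_add hsu (sm_const _), paneitz_const, hP x]
  have e : 4 * (u x + Real.log c / 4) = 4 * u x + Real.log c := by ring
  rw [e, Real.exp_add, Real.exp_log hc]
  ring

theorem norm_smul_p (p : S4) {s : ℝ} (hs : 0 ≤ s) : ‖s • (p : E5)‖ = s := by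
  rw [norm_smul, S4_norm, mul_one, Real.norm_of_nonneg hs]

/-- `Fb` in the zoomed coordinates -/
theorem Fb_mob (hMoa : MoaStmt) (β : ℝ → ℝ) (p : S4) {s : ℝ} (h0 : 0 < s) (h1 : s < 1) (x : S4) :
    Fb β p s (mob (s • (p : E5)) x) = β ⟪(p : E5), (x : E5)⟫_ℝ := by
  have hb : ‖s • (p : E5)‖ < 1 := by rw [norm_smul_p p h0.le]; exact h1
  obtain ⟨hpos, -, -, -, h5, -⟩ := hMoa _ hb
  have hp := hpos x
  have h := h5 x
  rw [norm_smul_p p h0.le, real_inner_smul_left, real_inner_smul_left] at h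
  rw [real_inner_smul_left] at hp
  set t := ⟪(p : E5), (x : E5)⟫_ℝ
  set T := ⟪(p : E5), (mob (s • (p : E5)) x : E5)⟫_ℝ with hT
  have hs2 : 0 < 1 - s ^ 2 := by nlinarith
  have hd : 1 - s * T ≠ 0 := by
    intro h0'
    rw [h0', zero_mul] at h
    exact hs2.ne h
  have hTt : s * (T - s) = s * (t * (1 - s * T)) := by
    nlinarith
  have hTt' : T - s = t * (1 - s * T) := mul_left_cancel₀ h0.ne' hTt
  unfold Fb
  rw [← hT, hTt', mul_div_assoc, div_self hd, mul_one]

/-- the support of `Fb` shrinks to `p` -/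
theorem supp_small {β : ℝ → ℝ} (hβ : Bump β) (p : S4) {U : Set S4} (hU : U ∈ 𝓝 p) :
    ∀ᶠ s : ℝ in 𝓝[<] 1, ∀ z, z ∉ U → Fb β p s z = 0 := by
  obtain ⟨r, hr, hrU⟩ := Metric.mem_nhds_iff.1 hU
  have hev : ∀ᶠ s : ℝ in 𝓝[<] 1, 7 / 3 * (1 - s) < r ^ 2 / 2 := by
    have hc : Tendsto (fun s : ℝ => 7 / 3 * (1 - s)) (𝓝 1) (𝓝 (7 / 3 * (1 - 1))) := by
      exact ((continuous_const.sub continuous_id).const_smul (7 / 3 : ℝ)).tendsto 1
    have h2 : (7 / 3 * (1 - 1) : ℝ) < r ^ 2 / 2 := by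
      rw [sub_self, mul_zero]; positivity
    exact (hc.eventually_lt_const h2).filter_mono nhdsWithin_le_nhds
  filter_upwards [hev, ev_pos] with s hs hs01 z hz
  obtain ⟨h0, h1⟩ := hs01
  apply hβ.2.2.2.2
  have hd : 1 - ⟪(p : E5), (z : E5)⟫_ℝ ≥ r ^ 2 / 2 := by
    have h1 : r ≤ dist z p := by
      by_contra hlt
      exact hz (hrU (Metric.mem_ball.2 (not_le.1 hlt)))
    have h2 := dist_sq p z
    have h3 : r ^ 2 ≤ dist z p ^ 2 := by gcongr
    linarith
  set t := ⟪(p : E5), (z : E5)⟫_ℝ with ht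
  have hle : t ≤ 1 := inner_le_one p z
  have hge : -1 ≤ t := neg_one_le_inner p z
  have hden : 0 < 1 - s * t := by nlinarith
  rw [le_abs]
  right
  rw [← neg_div, le_div_iff₀ hden]
  -- `2/5 (1 - s t) ≤ s - t`
  have h3 : 7 / 3 * (1 - s) < 1 - t := lt_of_lt_of_le hs hd
  nlinarith [mul_nonneg (sub_nonneg.2 h1.le) (sub_nonneg.2 hle)]

theorem asm (hCor : CorStmt) (hZom : ZomStmt) (hHol : HolStmt) (hL2b : L2bStmt)
    (hMoa : MoaStmt) (hMos : MosStmt) (hMoi : MoiStmt) (hFin : FinStmt) (hDer : DerStmt) :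
    AsmStmt := by
  intro Q p U α ε hQ hcrit hQp hU hα0 hα1 hε
  obtain ⟨β, hβ⟩ := exists_bump
  obtain ⟨e₀, c₀, he₀, hc₀, hcor⟩ := hCor p β hβ
  obtain ⟨CH, hCH0, hCH⟩ := hHol p β hβ
  set c : ℝ := 6 / Q p with hc
  have hc0 : 0 < c := by positivity
  have hcQ : c * Q p = 6 := by rw [hc]; field_simp
  have hQc : Continuous Q := continuous_of_sm hQ
  set η : ℝ := (1 - α) / 8 with hη
  have hη0 : 0 < η := by rw [hη]; linarith
  have hη1 : η < 1 := by rw [hη]; linarith
  obtain ⟨CZ, hCZ0, hCZ⟩ := hZom (fun x => c * Q x) p η (hQ.smul c) (fun v => by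
    rw [dd_fun_smul c hQ, hcrit v, mul_zero]) hη0 hη1
  -- powers of `1 - s` tend to zero
  have hpow : ∀ (a b δ : ℝ), 0 < a → 0 < δ → ∀ᶠ s : ℝ in 𝓝[<] 1, b * (1 - s) ^ a < δ := by
    intro a b δ ha hδ
    have h1 : Tendsto (fun s : ℝ => 1 - s) (𝓝 1) (𝓝 0) := by
      have : Continuous fun s : ℝ => 1 - s := by fun_prop
      simpa using this.tendsto 1
    have h2 : Tendsto (fun s : ℝ => (1 - s) ^ a) (𝓝 1) (𝓝 0) := by
      have := h1.rpow_const (p := a) (Or.inr ha.le)
      rwa [Real.zero_rpow ha.ne'] at this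
    have h3 : Tendsto (fun s : ℝ => b * (1 - s) ^ a) (𝓝 1) (𝓝 0) := by
      simpa using h2.const_mul b
    exact (h3.eventually_lt_const hδ).filter_mono nhdsWithin_le_nhds
  have ev1 := hpow (1 - 2 * η) 1 e₀ (by rw [hη]; linarith) he₀
  have ev2 := hpow η CZ (c₀ / 2) hη0 (by positivity)
  have ev3 := hpow ((1 - α) / 4) (CH / c) ε (by linarith) hε
  have ev4 := supp_small hβ p hU
  obtain ⟨s, hs1, hs2, hs3, hs4, hs0, hslt⟩ :=
    (ev1.and (ev2.and (ev3.and (ev4.and ev_pos)))).exists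
  have h1s : 0 < 1 - s := sub_pos.2 hslt
  set e : ℝ := (1 - s) ^ (1 - 2 * η) with he
  have he0 : 0 < e := Real.rpow_pos_of_pos h1s _
  have hee : e ≤ e₀ := by linarith
  obtain ⟨_, -, hD⟩ := hDer p β hβ
  have hFs : Sm (Fb β p s) := (hD s hs0.le hslt).1
  have hb : ‖s • (p : E5)‖ < 1 := by rw [norm_smul_p p hs0.le]; exact hslt
  have hQ1 : Sm (fun x => Q x + e / c * Fb β p s x) := hQ.add (hFs.smul (e / c))
  refine ⟨fun x => Q x + e / c * Fb β p s x, hQ1, ?_, ?_, ?_⟩
  · intro x hx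
    show Q x + e / c * Fb β p s x = Q x
    rw [hs4 x hx, mul_zero, add_zero]
  · -- the norm
    have h := hCH α s hα0 hα1.le hs0.le hslt
    have hkey : e / c * (CH * (1 - s) ^ (-((1 + α) / 2))) ≤ ε := by
      have e1 : e / c * (CH * (1 - s) ^ (-((1 + α) / 2))) =
          CH / c * ((1 - s) ^ (1 - 2 * η) * (1 - s) ^ (-((1 + α) / 2))) := by
        rw [he]; ring
      rw [e1, ← Real.rpow_add h1s]
      have e2 : 1 - 2 * η + -((1 + α) / 2) = (1 - α) / 4 := by rw [hη]; ring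
      rw [e2]
      exact hs3.le
    have hec : 0 < e / c := div_pos he0 hc0
    have hfun : (fun x => (Q x + e / c * Fb β p s x) - Q x) = fun x => e / c * Fb β p s x := by
      funext x; ring
    have hdd : ∀ (x : S4) (v : E5), dd (fun x => (Q x + e / c * Fb β p s x) - Q x) x v =
        e / c * dd (Fb β p s) x v := by
      intro x v
      rw [hfun, dd_fun_smul _ hFs]
    intro x y v
    obtain ⟨g1, g2, g3⟩ := h x y v
    have hv : 0 ≤ ‖v‖ := norm_nonneg v
    have hdp : 0 ≤ dist x y ^ α := Real.rpow_nonneg dist_nonneg _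
    refine ⟨?_, ?_, ?_⟩
    · show |(Q x + e / c * Fb β p s x) - Q x| ≤ ε
      rw [add_sub_cancel_left, abs_mul, abs_of_pos hec]
      exact (mul_le_mul_of_nonneg_left g1 hec.le).trans hkey
    · rw [hdd, abs_mul, abs_of_pos hec]
      calc e / c * |dd (Fb β p s) x v|
          ≤ e / c * (CH * (1 - s) ^ (-((1 + α) / 2)) * ‖v‖) := by gcongr
        _ = e / c * (CH * (1 - s) ^ (-((1 + α) / 2))) * ‖v‖ := by ring
        _ ≤ ε * ‖v‖ := by gcongr
    · rw [hdd, hdd, ← mul_sub, abs_mul, abs_of_pos hec]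
      calc e / c * |dd (Fb β p s) x v - dd (Fb β p s) y v|
          ≤ e / c * (CH * (1 - s) ^ (-((1 + α) / 2)) * ‖v‖ * dist x y ^ α) := by gcongr
        _ = e / c * (CH * (1 - s) ^ (-((1 + α) / 2))) * ‖v‖ * dist x y ^ α := by ring
        _ ≤ ε * ‖v‖ * dist x y ^ α := by gcongr
  · -- all neighbours are admissible
    set κ : ℝ := (1 + s) / (1 - s) with hκ
    have hκ0 : 0 < κ := by rw [hκ]; positivity
    refine ⟨c₀ / 2 * e / (c * κ), by positivity, fun Q₂ hQ₂ hN => ?_⟩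
    have hQ₂c : Continuous Q₂ := continuous_of_sm hQ₂
    have hmobc : ∀ F : S4 → ℝ, Sm F → Continuous (fun x => F (mob (s • (p : E5)) x)) :=
      fun F hF => continuous_of_sm (hMos.2 _ hb F hF)
    have hDs : Sm (fun x => Q₂ x - (Q x + e / c * Fb β p s x)) := sm_sub hQ₂ hQ1
    -- the zoomed function
    set q : S4 → ℝ := fun x => c * Q₂ (mob (s • (p : E5)) x) - 6 with hq
    have hqc : Continuous q := (continuous_const.mul (hmobc _ hQ₂)).sub continuous_const
    have hsplit : (fun x => q x - e * β ⟪(p : E5), (x : E5)⟫_ℝ) = fun x =>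
        c * (fun z => Q₂ z - (Q z + e / c * Fb β p s z)) (mob (s • (p : E5)) x) +
          (c * Q (mob (s • (p : E5)) x) - c * Q p) := by
      funext x
      show c * Q₂ (mob (s • (p : E5)) x) - 6 - e * β ⟪(p : E5), (x : E5)⟫_ℝ =
        c * (Q₂ (mob (s • (p : E5)) x) - (Q (mob (s • (p : E5)) x) + e / c *
          Fb β p s (mob (s • (p : E5)) x))) + (c * Q (mob (s • (p : E5)) x) - c * Q p)
      rw [Fb_mob hMoa β p hs0 hslt, hcQ]
      field_simp
      ring
    have hN1 : N2 (fun x => c * (fun z => Q₂ z - (Q z + e / c * Fb β p s z))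
        (mob (s • (p : E5)) x)) ≤ c₀ / 2 * e := by
      rw [N2_const_mul c (fun x => (fun z => Q₂ z - (Q z + e / c * Fb β p s z))
        (mob (s • (p : E5)) x)), abs_of_pos hc0]
      have h1 := hL2b (s • (p : E5)) (fun z => Q₂ z - (Q z + e / c * Fb β p s z)) hb
        (continuous_of_sm hDs)
      rw [norm_smul_p p hs0.le, ← hκ] at h1
      calc c * N2 (fun x => (fun z => Q₂ z - (Q z + e / c * Fb β p s z))
            (mob (s • (p : E5)) x))
          ≤ c * (κ * N2 (fun z => Q₂ z - (Q z + e / c * Fb β p s z))) := by gcongr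
        _ ≤ c * (κ * (c₀ / 2 * e / (c * κ))) := by gcongr
        _ = c₀ / 2 * e := by field_simp
    have hN2 : N2 (fun x => c * Q (mob (s • (p : E5)) x) - c * Q p) ≤ c₀ / 2 * e := by
      refine (hCZ s hs0 hslt).trans ?_
      have e1 : (1 - s) ^ (1 - η) = (1 - s) ^ η * e := by
        rw [he, ← Real.rpow_add h1s]
        congr 1
        ring
      rw [e1, ← mul_assoc]
      gcongr
    have hfin : N2 (fun x => q x - e * β ⟪(p : E5), (x : E5)⟫_ℝ) ≤ c₀ * e := by
      rw [hsplit]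
      have hc1 : Continuous fun x => c * (fun z => Q₂ z - (Q z + e / c * Fb β p s z))
          (mob (s • (p : E5)) x) := continuous_const.fun_mul (hmobc _ hDs)
      have hc2 : Continuous fun x => c * Q (mob (s • (p : E5)) x) - c * Q p :=
        (continuous_const.fun_mul (hmobc _ hQ)).fun_sub continuous_const
      have h := N2_add_le hc1 hc2
      linarith
    obtain ⟨w, hw⟩ := hcor e q he0 hee hqc hfin
    have hw' : IE (fun x => (fun z => c * Q₂ z) (mob (s • (p : E5)) x)) w := by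
      have : (fun x => 6 + q x) = fun x => (fun z => c * Q₂ z) (mob (s • (p : E5)) x) := by
        funext x
        show 6 + (c * Q₂ (mob (s • (p : E5)) x) - 6) = c * Q₂ (mob (s • (p : E5)) x)
        ring
      rw [← this]; exact hw
    obtain ⟨w', hw''⟩ := hMoi (s • (p : E5)) (fun z => c * Q₂ z) w hb
      (continuous_const.mul hQ₂c) hw'
    exact scale hQ₂ hc0 (hFin _ w' (hQ₂.smul c) hw'')

end Pool.Agent.FLX.H54
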