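import Pool.Agent.Helper54_FLX.Asm

/-!
# Squad FLX: more consequences (any point of positivity; extension from a closed set)
-/

set_option autoImplicit false

open scoped InnerProductSpace Topology ContDiff Manifold
open MeasureTheory Filter Set

noncomputable section

namespace Pool.Agent.FLX.H54

open Pool.Agent.Helper42_Paneitz Pool.Agent.Helper82_Vir Pool.Agent.FLX

/-- the `L²` neighbours of `Q + (e/c) Fb` are admissible -/
theorem nbhd (hL2b : L2bStmt) (hMoa : MoaStmt) (hMos : MosStmt) (hMoi : MoiStmt) (hFin : FinStmt)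
    {Q : S4 → ℝ} {p : S4} {β : ℝ → ℝ} (hQ : Sm Q) {c e c₀ s : ℝ} (hc0 : 0 < c)
    (hcQ : c * Q p = 6) (he0 : 0 < e) (hc₀ : 0 < c₀) (hs0 : 0 < s) (hslt : s < 1)
    (hFs : Sm (Fb β p s))
    (hcor : ∀ (q : S4 → ℝ), Continuous q →
      N2 (fun x => q x - e * β ⟪(p : E5), (x : E5)⟫_ℝ) ≤ c₀ * e →
      ∃ w : S4 → ℝ, IE (fun x => 6 + q x) w)
    (hN2 : N2 (fun x => c * Q (mob (s • (p : E5)) x) - c * Q p) ≤ c₀ / 2 * e) :
    ∃ δ : ℝ, 0 < δ ∧ ∀ Q₂ : S4 → ℝ, Sm Q₂ →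
      N2 (fun x => Q₂ x - (Q x + e / c * Fb β p s x)) < δ → IsPaneitzCurvature Q₂ := by
  have hb : ‖s • (p : E5)‖ < 1 := by rw [norm_smul_p p hs0.le]; exact hslt
  have h1s : 0 < 1 - s := sub_pos.2 hslt
  have hQ1 : Sm (fun x => Q x + e / c * Fb β p s x) := hQ.add (hFs.smul (e / c))
  set κ : ℝ := (1 + s) / (1 - s) with hκ
  have hκ0 : 0 < κ := by rw [hκ]; positivity
  refine ⟨c₀ / 2 * e / (c * κ), by positivity, fun Q₂ hQ₂ hN => ?_⟩
  have hQ₂c : Continuous Q₂ := continuous_of_sm hQ₂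
  have hmobc : ∀ F : S4 → ℝ, Sm F → Continuous (fun x => F (mob (s • (p : E5)) x)) :=
    fun F hF => continuous_of_sm (hMos.2 _ hb F hF)
  have hDs : Sm (fun x => Q₂ x - (Q x + e / c * Fb β p s x)) := sm_sub hQ₂ hQ1
  set q : S4 → ℝ := fun x => c * Q₂ (mob (s • (p : E5)) x) - 6 with hq
  have hqc : Continuous q := (continuous_const.mul (hmobc _ hQ₂)).sub continuous_const
  have hsplit : (fun x => q x - e * β ⟪(p : E5), (x : E5)⟫_ℝ) = fun x =>
      c * (fun z => Q₂ z - (Q z + e / c * Fb β p s z)) (mob (s • (p : E5)) x) +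
        (c * Q (mob (s • (p : E5)) x) - c * Q p) := by
    funext x
    show c * Q₂ (mob (s • (p : E5)) x) - 6 - e * β ⟪(p : E5), (x : E5)⟫_ℝ =
      c * (Q₂ (mob (s • (p : E5)) x) - (Q (mob (s • (p : E5)) x) + e / c *
        Fb β p s (mob (s • (p : E5)) x))) + (c * Q (mob (s • (p : E5)) x) - c * Q p)
    rw [Fb_mob hMoa β p hs0 hslt, hcQ]
    field_simp
    ring
  have hN1 : N2 (fun x => c * (fun z => Q₂ z - (Q z + e / c * Fb β p s z))
      (mob (s • (p : E5)) x)) ≤ c₀ / 2 * e := by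
    rw [N2_const_mul c (fun x => (fun z => Q₂ z - (Q z + e / c * Fb β p s z))
      (mob (s • (p : E5)) x)), abs_of_pos hc0]
    have h1 := hL2b (s • (p : E5)) (fun z => Q₂ z - (Q z + e / c * Fb β p s z)) hb
      (continuous_of_sm hDs)
    rw [norm_smul_p p hs0.le, ← hκ] at h1
    calc c * N2 (fun x => (fun z => Q₂ z - (Q z + e / c * Fb β p s z))
          (mob (s • (p : E5)) x))
        ≤ c * (κ * N2 (fun z => Q₂ z - (Q z + e / c * Fb β p s z))) := by gcongr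
      _ ≤ c * (κ * (c₀ / 2 * e / (c * κ))) := by gcongr
      _ = c₀ / 2 * e := by field_simp
  have hfin : N2 (fun x => q x - e * β ⟪(p : E5), (x : E5)⟫_ℝ) ≤ c₀ * e := by
    rw [hsplit]
    have hc1 : Continuous fun x => c * (fun z => Q₂ z - (Q z + e / c * Fb β p s z))
        (mob (s • (p : E5)) x) := continuous_const.fun_mul (hmobc _ hDs)
    have hc2 : Continuous fun x => c * Q (mob (s • (p : E5)) x) - c * Q p :=
      (continuous_const.fun_mul (hmobc _ hQ)).fun_sub continuous_const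
    have h := N2_add_le hc1 hc2
    linarith
  obtain ⟨w, hw⟩ := hcor q hqc hfin
  have hw' : IE (fun x => (fun z => c * Q₂ z) (mob (s • (p : E5)) x)) w := by
    have : (fun x => 6 + q x) = fun x => (fun z => c * Q₂ z) (mob (s • (p : E5)) x) := by
      funext x
      show 6 + (c * Q₂ (mob (s • (p : E5)) x) - 6) = c * Q₂ (mob (s • (p : E5)) x)
      ring
    rw [← this]; exact hw
  obtain ⟨w', hw''⟩ := hMoi (s • (p : E5)) (fun z => c * Q₂ z) w hb
    (continuous_const.mul hQ₂c) hw'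
  exact scale hQ₂ hc0 (hFin _ w' (hQ₂.smul c) hw'')

/-- a continuous function near a point: small plus a multiple of `1 - <p, z>` -/
theorem cont_bound {Q : S4 → ℝ} (hQ : Continuous Q) (p : S4) {δ : ℝ} (hδ : 0 < δ) :
    ∃ C : ℝ, 0 ≤ C ∧ ∀ z, |Q z - Q p| ≤ δ + C * (1 - ⟪(p : E5), (z : E5)⟫_ℝ) := by
  obtain ⟨r, hr, hrQ⟩ := Metric.continuous_iff.1 hQ p δ hδ
  obtain ⟨B, hB0, hB⟩ := exists_bound hQ
  refine ⟨2 * B * (2 / r ^ 2), by positivity, fun z => ?_⟩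
  have h1 := inner_le_one p z
  by_cases hz : dist z p < r
  · have h2 := hrQ z hz
    rw [Real.dist_eq] at h2
    have : 0 ≤ 2 * B * (2 / r ^ 2) * (1 - ⟪(p : E5), (z : E5)⟫_ℝ) := by
      have : 0 ≤ 1 - ⟪(p : E5), (z : E5)⟫_ℝ := sub_nonneg.2 h1
      positivity
    linarith
  · have h2 := dist_sq p z
    have h3 : r ^ 2 ≤ dist z p ^ 2 := by
      have := not_lt.1 hz
      gcongr
    have h4 : 1 ≤ (2 / r ^ 2) * (1 - ⟪(p : E5), (z : E5)⟫_ℝ) := by
      rw [div_mul_eq_mul_div, one_le_div (by positivity)]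
      linarith
    have h5 : |Q z - Q p| ≤ 2 * B := by
      have := abs_sub (Q z) (Q p)
      linarith [hB z, hB p]
    calc |Q z - Q p| ≤ 2 * B := h5
      _ ≤ 2 * B * ((2 / r ^ 2) * (1 - ⟪(p : E5), (z : E5)⟫_ℝ)) :=
          le_mul_of_one_le_right (by positivity) h4
      _ ≤ δ + 2 * B * (2 / r ^ 2) * (1 - ⟪(p : E5), (z : E5)⟫_ℝ) := by
          rw [mul_assoc (2 * B)]; linarith

/-- the `L²` norm of the zoom of a smooth function tends to zero -/
theorem zoom_tendsto (hZom : ZomStmt) (hMos : MosStmt) {Q : S4 → ℝ} (hQ : Sm Q) (p : S4) {δ : ℝ}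
    (hδ : 0 < δ) :
    ∀ᶠ s : ℝ in 𝓝[<] 1, N2 (fun x => Q (mob (s • (p : E5)) x) - Q p) ≤ δ := by
  have hm := msig_pos
  have hsm : 0 < √msig := Real.sqrt_pos.2 hm
  obtain ⟨C, hC0, hC⟩ := cont_bound (continuous_of_sm hQ) p (δ := δ / (2 * √msig)) (by positivity)
  have hsmp : Sm (fun x : S4 => ⟪(p : E5), (x : E5)⟫_ℝ) := sm_inner _
  have hcrit : Crit (fun x : S4 => ⟪(p : E5), (x : E5)⟫_ℝ) p := by
    intro v
    rw [dd_inner, real_inner_self_eq_norm_sq, S4_norm]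
    ring
  obtain ⟨C', hC'0, hC'⟩ := hZom _ p (1 / 2) hsmp hcrit (by norm_num) (by norm_num)
  have hlim : ∀ᶠ s : ℝ in 𝓝[<] 1, C * C' * (1 - s) ^ (1 - 1 / 2 : ℝ) < δ / 2 := by
    have h1 : Tendsto (fun s : ℝ => 1 - s) (𝓝 1) (𝓝 0) := by
      have : Continuous fun s : ℝ => 1 - s := by fun_prop
      simpa using this.tendsto 1
    have h2 : Tendsto (fun s : ℝ => (1 - s) ^ (1 - 1 / 2 : ℝ)) (𝓝 1) (𝓝 0) := by
      have := h1.rpow_const (p := (1 - 1 / 2 : ℝ)) (Or.inr (by norm_num))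
      rwa [Real.zero_rpow (by norm_num)] at this
    have h3 : Tendsto (fun s : ℝ => C * C' * (1 - s) ^ (1 - 1 / 2 : ℝ)) (𝓝 1) (𝓝 0) := by
      simpa using h2.const_mul (C * C')
    exact (h3.eventually_lt_const (half_pos hδ)).filter_mono nhdsWithin_le_nhds
  filter_upwards [hlim, ev_pos] with s hs hs01
  obtain ⟨hs0, hslt⟩ := hs01
  have hb : ‖s • (p : E5)‖ < 1 := by rw [norm_smul_p p hs0.le]; exact hslt
  have hc1 : Continuous fun x => Q (mob (s • (p : E5)) x) - Q p :=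
    (continuous_of_sm (hMos.2 _ hb Q hQ)).fun_sub continuous_const
  have hc2 : Continuous fun x => ⟪(p : E5), (mob (s • (p : E5)) x : E5)⟫_ℝ - ⟪(p : E5), (p : E5)⟫_ℝ :=
    (continuous_of_sm (hMos.2 _ hb _ hsmp)).fun_sub continuous_const
  have hpp : ⟪(p : E5), (p : E5)⟫_ℝ = 1 := by
    rw [real_inner_self_eq_norm_sq, S4_norm]; norm_num
  have hc3 : Continuous fun x => C * (⟪(p : E5), (mob (s • (p : E5)) x : E5)⟫_ℝ -
      ⟪(p : E5), (p : E5)⟫_ℝ) := continuous_const.fun_mul hc2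
  have hc4 : Continuous fun x => δ / (2 * √msig) + (-1) * (C * (⟪(p : E5),
      (mob (s • (p : E5)) x : E5)⟫_ℝ - ⟪(p : E5), (p : E5)⟫_ℝ)) :=
    continuous_const.fun_add (continuous_const.fun_mul hc3)
  have hmono := N2_mono hc1 hc4 fun x => by
    have h1 := hC (mob (s • (p : E5)) x)
    have h2 := inner_le_one p (mob (s • (p : E5)) x)
    have h3 : (0 : ℝ) ≤ δ / (2 * √msig) + (-1) * (C * (⟪(p : E5),
        (mob (s • (p : E5)) x : E5)⟫_ℝ - ⟪(p : E5), (p : E5)⟫_ℝ)) := by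
      rw [hpp]
      have : 0 ≤ C * (1 - ⟪(p : E5), (mob (s • (p : E5)) x : E5)⟫_ℝ) :=
        mul_nonneg hC0 (sub_nonneg.2 h2)
      have h4 : 0 ≤ δ / (2 * √msig) := by positivity
      linarith
    rw [abs_of_nonneg h3, hpp]
    linarith
  have h5 := N2_add_le (continuous_const (y := δ / (2 * √msig)))
    (continuous_const.fun_mul hc3 (f := fun _ : S4 => (-1 : ℝ)))
  rw [N2_const_mul (-1) (fun x => C * (⟪(p : E5), (mob (s • (p : E5)) x : E5)⟫_ℝ -
    ⟪(p : E5), (p : E5)⟫_ℝ)), N2_const_mul C, N2_const, abs_of_nonneg hC0,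
    abs_of_nonneg (by positivity : (0 : ℝ) ≤ δ / (2 * √msig))] at h5
  have h6 := hC' s hs0 hslt
  have h7 : √msig * (δ / (2 * √msig)) = δ / 2 := by field_simp
  have h8 : |(-1 : ℝ)| = 1 := by norm_num
  rw [h7, h8, one_mul] at h5
  have h9 : C * N2 (fun x => ⟪(p : E5), (mob (s • (p : E5)) x : E5)⟫_ℝ -
      ⟪(p : E5), (p : E5)⟫_ℝ) ≤ C * (C' * (1 - s) ^ (1 - 1 / 2 : ℝ)) := by gcongr
  linarith

/-- **Any point of positivity**: a `C⁰`-small change in a neighbourhood. -/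
theorem asm0 (hCor : CorStmt) (hZom : ZomStmt) (hL2b : L2bStmt)
    (hMoa : MoaStmt) (hMos : MosStmt) (hMoi : MoiStmt) (hFin : FinStmt) (hDer : DerStmt)
    (Q : S4 → ℝ) (p : S4) (U : Set S4) (ε : ℝ) (hQ : Sm Q) (hQp : 0 < Q p) (hU : U ∈ 𝓝 p)
    (hε : 0 < ε) : ∃ Q₁ : S4 → ℝ, Sm Q₁ ∧ (∀ x, x ∉ U → Q₁ x = Q x) ∧
      (∀ x, |Q₁ x - Q x| ≤ ε) ∧ ∃ δ : ℝ, 0 < δ ∧ ∀ Q₂ : S4 → ℝ, Sm Q₂ →
        N2 (fun x => Q₂ x - Q₁ x) < δ → IsPaneitzCurvature Q₂ := by
  obtain ⟨β, hβ⟩ := exists_bump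
  obtain ⟨e₀, c₀, he₀, hc₀, hcor⟩ := hCor p β hβ
  obtain ⟨C, hC0, hD⟩ := hDer p β hβ
  set c : ℝ := 6 / Q p with hc
  have hc0 : 0 < c := by positivity
  have hcQ : c * Q p = 6 := by rw [hc]; field_simp
  set e : ℝ := min e₀ (ε * c / (C + 1)) with he
  have he0 : 0 < e := lt_min he₀ (by positivity)
  have ev1 := zoom_tendsto hZom hMos (hQ.smul c) p (δ := c₀ / 2 * e) (by positivity)
  have ev2 := supp_small hβ p hU
  obtain ⟨s, hs1, hs4, hs0, hslt⟩ := (ev1.and (ev2.and ev_pos)).exists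
  have hFs : Sm (Fb β p s) := (hD s hs0.le hslt).1
  refine ⟨fun x => Q x + e / c * Fb β p s x, hQ.add (hFs.smul (e / c)), ?_, ?_, ?_⟩
  · intro x hx
    show Q x + e / c * Fb β p s x = Q x
    rw [hs4 x hx, mul_zero, add_zero]
  · intro x
    show |Q x + e / c * Fb β p s x - Q x| ≤ ε
    have hec : 0 < e / c := div_pos he0 hc0
    rw [add_sub_cancel_left, abs_mul, abs_of_pos hec]
    have h1 := ((hD s hs0.le hslt).2 x 0 0).1
    calc e / c * |Fb β p s x| ≤ (ε * c / (C + 1)) / c * (C + 1) := by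
          have h2 : e ≤ ε * c / (C + 1) := min_le_right _ _
          gcongr
          linarith
      _ = ε := by
          have : C + 1 ≠ 0 := by positivity
          field_simp
  · exact nbhd hL2b hMoa hMos hMoi hFin hQ hc0 hcQ he0 hc₀ hs0 hslt hFs
      (fun q hq1 hq2 => hcor e q he0 (min_le_left _ _) hq1 hq2) hs1

/-- a smooth function with large values near a point and support in a neighbourhood -/
theorem exists_hill (x₀ : S4) {U : Set S4} (hU : U ∈ 𝓝 x₀) :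
    ∃ b : S4 → ℝ, Sm b ∧ (∀ x, 0 ≤ b x) ∧ 0 < b x₀ ∧ ∀ x, x ∉ U → b x = 0 := by
  obtain ⟨r, hr, hrU⟩ := Metric.mem_nhds_iff.1 hU
  refine ⟨fun x => expNegInvGlue (r ^ 2 / 2 - (1 - ⟪(x₀ : E5), (x : E5)⟫_ℝ)), ?_, ?_, ?_, ?_⟩
  · have h1 : Sm (fun x : S4 => ⟪(x₀ : E5), (x : E5)⟫_ℝ) := sm_inner _
    have h2 : Sm (fun x : S4 => r ^ 2 / 2 - (1 - ⟪(x₀ : E5), (x : E5)⟫_ℝ)) :=
      sm_sub (sm_const _) (sm_sub (sm_const _) h1)
    exact sm_comp h2 expNegInvGlue.contDiff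
  · exact fun x => expNegInvGlue.nonneg _
  · apply expNegInvGlue.pos_of_pos
    rw [real_inner_self_eq_norm_sq, S4_norm]
    have : 0 < r ^ 2 / 2 := by positivity
    linarith
  · intro x hx
    apply expNegInvGlue.zero_of_nonpos
    have h1 : r ≤ dist x x₀ := by
      by_contra hlt
      exact hx (hrU (Metric.mem_ball.2 (not_le.1 hlt)))
    have h2 := dist_sq x₀ x
    have h3 : r ^ 2 ≤ dist x x₀ ^ 2 := by gcongr
    linarith

/-- **Extension**: every smooth function can be changed in any nonempty open set to become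
admissible. -/
theorem ext (hCor : CorStmt) (hZom : ZomStmt) (hL2b : L2bStmt)
    (hMoa : MoaStmt) (hMos : MosStmt) (hMoi : MoiStmt) (hFin : FinStmt) (hDer : DerStmt)
    (Q : S4 → ℝ) (U : Set S4) (hQ : Sm Q) (hU : IsOpen U) (hne : U.Nonempty) :
    ∃ Q₁ : S4 → ℝ, (∀ x, x ∉ U → Q₁ x = Q x) ∧ IsPaneitzCurvature Q₁ := by
  obtain ⟨x₀, hx₀⟩ := hne
  obtain ⟨b, hb, hb0, hb1, hb2⟩ := exists_hill x₀ (hU.mem_nhds hx₀)
  set M : ℝ := (|Q x₀| + 1) / b x₀ with hM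
  have hQ' : Sm (fun x => Q x + M * b x) := hQ.add (hb.smul M)
  have hpos : 0 < Q x₀ + M * b x₀ := by
    rw [hM, div_mul_cancel₀ _ hb1.ne']
    have := neg_abs_le (Q x₀)
    linarith
  obtain ⟨Q₁, h1, h2, -, δ, hδ, h4⟩ := asm0 hCor hZom hL2b hMoa hMos hMoi hFin hDer
    (fun x => Q x + M * b x) x₀ U 1 hQ' hpos (hU.mem_nhds hx₀) one_pos
  refine ⟨Q₁, fun x hx => ?_, h4 Q₁ h1 ?_⟩
  · rw [h2 x hx]
    show Q x + M * b x = Q x
    rw [hb2 x hx, mul_zero, add_zero]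
  · simpa [N2] using hδ

end Pool.Agent.FLX.H54
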