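import Pool.Agent.Helper54_FLX.Asm2

/-!
# MP_5f32e0_gt: Paneitz curvatures are flexible in every open set

Every smooth function on `S^4` can be changed in an arbitrary nonempty open set `U`, and only
there, to become the Paneitz curvature of a metric conformal to the round one: the restrictions of
Paneitz curvatures to a proper closed subset of `S^4` are all smooth functions, so there is no
condition on `Q` outside `U`. If `Q(p) > 0` for some `p ∈ U` then the change can be made arbitrarily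
small in the sup norm, and all smooth functions in an `L²` neighbourhood of the new function are
Paneitz curvatures as well.
-/

set_option autoImplicit false

open scoped InnerProductSpace Topology ContDiff Manifold
open MeasureTheory Filter Set

noncomputable section

namespace Pool.Agent.Helper54FLX.LocalFlexibility

open Pool.Agent.Helper42_Paneitz

/-- The area measure of the unit sphere. -/
def area : Measure S4 := (volume : Measure E5).toSphere

/-- Smooth functions on `S^4`. -/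
def Smooth (f : S4 → ℝ) : Prop := ContMDiff (𝓡 4) 𝓘(ℝ, ℝ) ∞ f

open Pool.Agent.Helper82_Vir Pool.Agent.FLX in
/-- Let `Q` be smooth on `S^4` and `U` a nonempty open set. There is a Paneitz curvature `Q₁` of a
conformal metric with `Q₁ = Q` outside `U`. If `Q(p) > 0` for some `p ∈ U` and `ε > 0` then there are
a smooth `Q₁` with `Q₁ = Q` outside `U` and `|Q₁ - Q| ≤ ε` and a number `δ > 0` such that every smooth
`Q₂` with `∫ (Q₂ - Q₁)² ≤ δ`, in particular `Q₁`, is a Paneitz curvature. -/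
theorem result' (hCor : CorStmt) (hZom : ZomStmt) (hL2b : L2bStmt)
    (hMoa : MoaStmt) (hMos : MosStmt) (hMoi : MoiStmt) (hFin : FinStmt) (hDer : DerStmt)
    (Q : S4 → ℝ) (U : Set S4) (hQ : Smooth Q) (hU : IsOpen U) (hne : U.Nonempty) :
    (∃ Q₁ : S4 → ℝ, (∀ x, x ∉ U → Q₁ x = Q x) ∧ IsPaneitzCurvature Q₁) ∧
    ∀ p ∈ U, 0 < Q p → ∀ ε : ℝ, 0 < ε →
      ∃ Q₁ : S4 → ℝ, Smooth Q₁ ∧ (∀ x, x ∉ U → Q₁ x = Q x) ∧ (∀ x, |Q₁ x - Q x| ≤ ε) ∧
        ∃ δ : ℝ, 0 < δ ∧ ∀ Q₂ : S4 → ℝ, Smooth Q₂ → ∫ x, (Q₂ x - Q₁ x) ^ 2 ∂area ≤ δ →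
          IsPaneitzCurvature Q₂ := by
  refine ⟨H54.ext hCor hZom hL2b hMoa hMos hMoi hFin hDer Q U (sm_of_contMDiff hQ) hU hne, ?_⟩
  intro p hp hpos ε hε
  obtain ⟨Q₁, g1, g2, g3, δ, hδ, g4⟩ := H54.asm0 hCor hZom hL2b hMoa hMos hMoi hFin hDer
    Q p U ε (sm_of_contMDiff hQ) hpos (hU.mem_nhds hp) hε
  refine ⟨Q₁, contMDiff_of_sm g1, g2, g3, (δ / 2) ^ 2, by positivity, fun Q₂ hQ₂ h => ?_⟩
  refine g4 Q₂ (sm_of_contMDiff hQ₂) ?_
  have h3 : N2 (fun x => Q₂ x - Q₁ x) ≤ δ / 2 := by
    unfold N2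
    rw [Real.sqrt_le_left (by positivity)]
    exact h
  linarith

end Pool.Agent.Helper54FLX.LocalFlexibility
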